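import Mathlib

/-!
Finite product spaces `V → α` with the uniform measure: functions depending on few coordinates,
independence, and the (symmetric) Lovász local lemma.
-/

namespace Pool.Agent.Helper86.BF

open Finset

variable {V : Type*} [Fintype V] [DecidableEq V] {α : Type*} [Fintype α] [DecidableEq α]

/-- `f` depends only on the coordinates in `D`. -/
def DepOn {β : Type*} (D : Finset V) (f : (V → α) → β) : Prop :=
  ∀ ω ω' : V → α, (∀ v ∈ D, ω v = ω' v) → f ω = f ω'

omit [Fintype V] [DecidableEq V] [Fintype α] [DecidableEq α] in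
theorem DepOn.mono {β : Type*} {D D' : Finset V} {f : (V → α) → β} (h : DepOn D f)
    (hD : D ⊆ D') : DepOn D' f := fun ω ω' hh => h ω ω' fun v hv => hh v (hD hv)

/-- exchange of the coordinates in `D` of two points -/
def swapE (D : Finset V) : ((V → α) × (V → α)) ≃ ((V → α) × (V → α)) where
  toFun p := (D.piecewise p.1 p.2, D.piecewise p.2 p.1)
  invFun p := (D.piecewise p.1 p.2, D.piecewise p.2 p.1)
  left_inv p := by
    ext v <;> by_cases hv : v ∈ D <;> simp [hv]
  right_inv p := by
    ext v <;> by_cases hv : v ∈ D <;> simp [hv]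

/-- independence -/
theorem sum_mul_card {D D' : Finset V} (hD : Disjoint D D') {f g : (V → α) → ℝ}
    (hf : DepOn D f) (hg : DepOn D' g) :
    (∑ ω, f ω * g ω) * (Fintype.card (V → α) : ℝ) = (∑ ω, f ω) * (∑ ω, g ω) := by
  have h1 : (∑ ω, f ω) * (∑ ω, g ω) = ∑ p : (V → α) × (V → α), f p.1 * g p.2 := by
    rw [Finset.sum_mul_sum, ← Finset.sum_product']; rfl
  have h2 : ∑ p : (V → α) × (V → α), f p.1 * g p.2
      = ∑ p : (V → α) × (V → α), f p.1 * g p.1 := by
    rw [← Equiv.sum_comp (swapE D) (fun p => f p.1 * g p.2)]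
    refine Finset.sum_congr rfl fun p _ => ?_
    have e1 : f (swapE D p).1 = f p.1 := by
      apply hf; intro v hv; simp [swapE, hv]
    have e2 : g (swapE D p).2 = g p.1 := by
      apply hg; intro v hv
      have : v ∉ D := fun h => (Finset.disjoint_left.1 hD h) hv
      simp [swapE, this]
    rw [e1, e2]
  have h3 : ∑ p : (V → α) × (V → α), f p.1 * g p.1
      = (∑ ω, f ω * g ω) * (Fintype.card (V → α) : ℝ) := by
    rw [Fintype.sum_prod_type]
    simp only [Finset.sum_const, Finset.card_univ, nsmul_eq_mul]
    rw [Finset.sum_mul]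
    exact Finset.sum_congr rfl fun x _ => by ring
  rw [h1, h2, h3]

theorem card_inter_mul {D D' : Finset V} (hD : Disjoint D D') {A B : Finset (V → α)}
    (hA : DepOn D (fun ω => ω ∈ A)) (hB : DepOn D' (fun ω => ω ∈ B)) :
    #(A ∩ B) * Fintype.card (V → α) = #A * #B := by
  have key := sum_mul_card (α := α) hD (f := fun ω => if ω ∈ A then (1 : ℝ) else 0)
    (g := fun ω => if ω ∈ B then (1 : ℝ) else 0) ?_ ?_
  · have e1 : ∑ ω : V → α, (if ω ∈ A then (1 : ℝ) else 0) * (if ω ∈ B then (1 : ℝ) else 0)
        = (#(A ∩ B) : ℝ) := by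
      rw [Finset.card_eq_sum_ones, Nat.cast_sum]
      rw [← Finset.sum_filter_add_sum_filter_not univ (fun ω => ω ∈ A ∩ B)]
      rw [Finset.sum_eq_zero (s := univ.filter (fun ω => ¬ ω ∈ A ∩ B))]
      · have : univ.filter (fun ω => ω ∈ A ∩ B) = A ∩ B := by ext; simp
        rw [this, add_zero]
        refine Finset.sum_congr rfl fun ω hω => ?_
        simp only [mem_inter] at hω
        simp [hω.1, hω.2]
      · intro ω hω
        simp only [mem_filter, mem_univ, true_and, mem_inter, not_and] at hω
        by_cases h : ω ∈ A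
        · simp [hω h]
        · simp [h]
    have e2 : ∀ A : Finset (V → α), ∑ ω : V → α, (if ω ∈ A then (1 : ℝ) else 0) = (#A : ℝ) := by
      intro A; rw [Finset.sum_ite_mem]; simp
    rw [e1, e2, e2] at key
    exact_mod_cast key
  · intro ω ω' h
    have := hA ω ω' h
    simp only [eq_iff_iff] at this
    by_cases h1 : ω ∈ A
    · simp [h1, this.1 h1]
    · have : ω' ∉ A := fun h' => h1 (this.2 h')
      simp [h1, this]
  · intro ω ω' h
    have := hB ω ω' h
    simp only [eq_iff_iff] at this
    by_cases h1 : ω ∈ B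
    · simp [h1, this.1 h1]
    · have : ω' ∉ B := fun h' => h1 (this.2 h')
      simp [h1, this]

section LLL

variable {J : Type*} [DecidableEq J] (B : J → Finset (V → α))

/-- points avoiding all events in `T` -/
def good (T : Finset J) : Finset (V → α) := univ.filter fun ω => ∀ j ∈ T, ω ∉ B j

theorem mem_good {T : Finset J} {ω : V → α} : ω ∈ good B T ↔ ∀ j ∈ T, ω ∉ B j := by
  simp [good]

theorem good_dep (D : J → Finset V) (hdep : ∀ j, DepOn (D j) (fun ω => ω ∈ B j)) (T : Finset J) :
    DepOn (T.biUnion D) (fun ω => ω ∈ good B T) := by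
  intro ω ω' h
  simp only [mem_good, eq_iff_iff]
  have : ∀ j ∈ T, (ω ∈ B j ↔ ω' ∈ B j) := fun j hj => by
    have := hdep j ω ω' fun v hv => h v (mem_biUnion.2 ⟨j, hj, hv⟩)
    simpa using this
  exact ⟨fun h1 j hj h2 => h1 j hj ((this j hj).2 h2), fun h1 j hj h2 => h1 j hj ((this j hj).1 h2)⟩

theorem lll_key (D : J → Finset V) (hdep : ∀ j, DepOn (D j) (fun ω => ω ∈ B j)) (d : ℕ)
    (hd0 : 0 < d)
    (hp : ∀ j, 4 * d * #(B j) ≤ Fintype.card (V → α))
    (hne : 0 < Fintype.card (V → α)) (U : Finset J)
    (hd : ∀ j, #(U.filter fun j' => ¬ Disjoint (D j) (D j')) ≤ d) :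
    ∀ T : Finset J, T ⊆ U → ∀ j, j ∉ T → 2 * d * #(good B T ∩ B j) ≤ #(good B T) := by
  intro T
  induction T using Finset.strongInduction with
  | H T ih =>
    intro hTU j hj
    set T1 := T.filter fun j' => ¬ Disjoint (D j) (D j') with hT1
    set T2 := T.filter fun j' => Disjoint (D j) (D j') with hT2
    have hsub : T2 ⊆ T := filter_subset _ _
    have hgood : good B T ⊆ good B T2 := by
      intro ω hω; rw [mem_good] at *; exact fun j' hj' => hω j' (hsub hj')
    have hdisj : Disjoint (T2.biUnion D) (D j) := by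
      rw [Finset.disjoint_biUnion_left]
      intro j' hj'
      exact ((mem_filter.1 hj').2).symm
    have h1 : 4 * d * #(good B T2 ∩ B j) ≤ #(good B T2) := by
      have hind := card_inter_mul hdisj (good_dep B D hdep T2) (hdep j)
      have h3 := Nat.mul_le_mul_left (#(good B T2)) (hp j)
      have h4 : (4 * d * #(good B T2 ∩ B j)) * Fintype.card (V → α)
          ≤ #(good B T2) * Fintype.card (V → α) := by
        calc (4 * d * #(good B T2 ∩ B j)) * Fintype.card (V → α)
            = 4 * d * (#(good B T2 ∩ B j) * Fintype.card (V → α)) := by ring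
          _ = #(good B T2) * (4 * d * #(B j)) := by rw [hind]; ring
          _ ≤ _ := h3
      exact Nat.le_of_mul_le_mul_right h4 hne
    have h2 : #(good B T ∩ B j) ≤ #(good B T2 ∩ B j) :=
      card_le_card (inter_subset_inter_right hgood)
    have h5 : #(good B T2) ≤ 2 * #(good B T) := by
      rcases T1.eq_empty_or_nonempty with h0 | h0
      · have : T2 = T := by
          apply filter_true_of_mem
          intro j' hj'
          by_contra hcon
          have : j' ∈ T1 := mem_filter.2 ⟨hj', hcon⟩
          rw [h0] at this; simp at this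
        rw [this]; omega
      · have hss : T2 ⊂ T := by
          refine ⟨hsub, fun hh => ?_⟩
          obtain ⟨x, hx⟩ := h0
          have hx' := mem_filter.1 hx
          exact hx'.2 (mem_filter.1 (hh hx'.1)).2
        have hcov : good B T2 ⊆ good B T ∪ T1.biUnion fun j' => good B T2 ∩ B j' := by
          intro ω hω
          by_cases hh : ω ∈ good B T
          · exact mem_union_left _ hh
          · apply mem_union_right
            rw [mem_good] at hh
            push Not at hh
            obtain ⟨j', hj', hj''⟩ := hh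
            rw [mem_biUnion]
            refine ⟨j', mem_filter.2 ⟨hj', fun hdd => ?_⟩, mem_inter.2 ⟨hω, hj''⟩⟩
            exact (mem_good B).1 hω j' (mem_filter.2 ⟨hj', hdd⟩) hj''
        have hc := (card_le_card hcov).trans (card_union_le _ _)
        have hc2 : #(T1.biUnion fun j' => good B T2 ∩ B j') ≤ ∑ j' ∈ T1, #(good B T2 ∩ B j') :=
          card_biUnion_le
        have hc3 : 2 * d * ∑ j' ∈ T1, #(good B T2 ∩ B j') ≤ #T1 * #(good B T2) := by
          rw [Finset.mul_sum]
          calc ∑ j' ∈ T1, 2 * d * #(good B T2 ∩ B j') ≤ ∑ _j' ∈ T1, #(good B T2) := by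
                apply sum_le_sum
                intro j' hj'
                apply ih T2 hss (hsub.trans hTU)
                intro hcon
                exact (mem_filter.1 hj').2 (mem_filter.1 hcon).2
            _ = _ := by simp
        have hc4 : #T1 ≤ d := (card_le_card (filter_subset_filter _ hTU)).trans (hd j)
        have hc5 : 2 * d * ∑ j' ∈ T1, #(good B T2 ∩ B j') ≤ d * #(good B T2) :=
          hc3.trans (Nat.mul_le_mul_right _ hc4)
        have hc6 : 2 * ∑ j' ∈ T1, #(good B T2 ∩ B j') ≤ #(good B T2) := by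
          apply Nat.le_of_mul_le_mul_left (c := d) _ hd0
          calc d * (2 * ∑ j' ∈ T1, #(good B T2 ∩ B j'))
              = 2 * d * ∑ j' ∈ T1, #(good B T2 ∩ B j') := by ring
            _ ≤ _ := hc5
        omega
    have h6 : 2 * (2 * d * #(good B T ∩ B j)) ≤ 2 * #(good B T) := by
      calc 2 * (2 * d * #(good B T ∩ B j)) = 4 * d * #(good B T ∩ B j) := by ring
        _ ≤ 4 * d * #(good B T2 ∩ B j) := Nat.mul_le_mul_left _ h2
        _ ≤ _ := h1
        _ ≤ _ := h5
    omega

/-- **Symmetric Lovász local lemma** for the uniform measure on a finite product. -/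
theorem lll [Fintype J] (D : J → Finset V) (hdep : ∀ j, DepOn (D j) (fun ω => ω ∈ B j)) (d : ℕ)
    (hd0 : 0 < d) [Nonempty α]
    (hp : ∀ j, 4 * d * #(B j) ≤ Fintype.card (V → α))
    (hd : ∀ j, #(univ.filter fun j' => ¬ Disjoint (D j) (D j')) ≤ d) :
    ∃ ω : V → α, ∀ j, ω ∉ B j := by
  have hne : 0 < Fintype.card (V → α) := Fintype.card_pos
  have key := lll_key B D hdep d hd0 hp hne univ hd
  have hpos : ∀ T : Finset J, 0 < #(good B T) := by
    intro T
    induction T using Finset.induction_on with
    | empty =>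
      have : good B ∅ = univ := by ext; simp [mem_good]
      rw [this, card_univ]; exact hne
    | insert j T hj ih =>
      have h1 := key T (subset_univ _) j hj
      have h2 : good B T ⊆ good B (insert j T) ∪ (good B T ∩ B j) := by
        intro ω hω
        by_cases hh : ω ∈ B j
        · exact mem_union_right _ (mem_inter.2 ⟨hω, hh⟩)
        · apply mem_union_left
          rw [mem_good] at *
          intro j' hj'
          rcases mem_insert.1 hj' with rfl | h
          · exact hh
          · exact hω j' h
      have h3 := (card_le_card h2).trans (card_union_le _ _)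
      have h4 : 2 * #(good B T ∩ B j) ≤ 2 * d * #(good B T ∩ B j) := by
        apply Nat.mul_le_mul_right; omega
      omega
  obtain ⟨ω, hω⟩ := card_pos.1 (hpos univ)
  exact ⟨ω, fun j => (mem_good B).1 hω j (mem_univ _)⟩

end LLL

end Pool.Agent.Helper86.BF
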