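import Pool.Agent.Helper86.BF.LLL

/-!
Concentration inequalities on finite product spaces.
-/

namespace Pool.Agent.Helper86.BF

open Finset Real

variable {V : Type*} [Fintype V] [DecidableEq V] {α : Type*} [Fintype α] [DecidableEq α]

theorem exp_le_add_exp_sq (z : ℝ) : exp z ≤ z + exp (z ^ 2) := by
  have h0 : z ^ 2 + 1 ≤ exp (z ^ 2) := add_one_le_exp _
  rcases le_or_gt (|z|) 1 with h | h
  · have h1 := Real.abs_exp_sub_one_sub_id_le h
    have h2 := (abs_le.1 h1).2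
    linarith
  · rcases lt_or_ge z 0 with hz | hz
    · rw [abs_of_neg hz] at h
      have h1 : exp z ≤ 1 := exp_le_one_iff.2 hz.le
      nlinarith
    · rw [abs_of_nonneg hz] at h
      have h1 : exp z ≤ exp (z ^ 2) := exp_le_exp.2 (by nlinarith)
      linarith

theorem resample (v0 : V) (h : (V → α) → ℝ) :
    ∑ ω, ∑ u : α, h (Function.update ω v0 u) = (Fintype.card α : ℝ) * ∑ ω, h ω := by
  let e : ((V → α) × α) ≃ ((V → α) × α) :=
    { toFun := fun p => (Function.update p.1 v0 p.2, p.1 v0)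
      invFun := fun p => (Function.update p.1 v0 p.2, p.1 v0)
      left_inv := by intro p; simp
      right_inv := by intro p; simp }
  have h1 : ∑ ω, ∑ u : α, h (Function.update ω v0 u)
      = ∑ p : (V → α) × α, h (e p).1 := by
    rw [Fintype.sum_prod_type]; rfl
  rw [h1, Equiv.sum_comp e (fun p => h p.1), Fintype.sum_prod_type]
  simp only [sum_const, card_univ, nsmul_eq_mul]
  rw [mul_sum]

theorem markov (g : (V → α) → ℝ) (lam θ : ℝ) (hθ : 0 ≤ θ) :
    (#(univ.filter fun ω => lam < g ω) : ℝ) * exp (θ * lam) ≤ ∑ ω, exp (θ * g ω) := by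
  calc (#(univ.filter fun ω => lam < g ω) : ℝ) * exp (θ * lam)
      = ∑ _ω ∈ univ.filter (fun ω => lam < g ω), exp (θ * lam) := by simp
    _ ≤ ∑ ω ∈ univ.filter (fun ω => lam < g ω), exp (θ * g ω) := by
        apply sum_le_sum
        intro ω hω
        apply exp_le_exp.2
        exact mul_le_mul_of_nonneg_left (mem_filter.1 hω).2.le hθ
    _ ≤ _ := sum_le_sum_of_subset_of_nonneg (filter_subset _ _) fun _ _ _ => (exp_pos _).le

theorem tail_one (g : (V → α) → ℝ) (C lam : ℝ) (hC : 0 < C) (hl : 0 ≤ lam)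
    (h : ∀ θ : ℝ, ∑ ω, exp (θ * g ω) ≤ (Fintype.card (V → α) : ℝ) * exp (C * θ ^ 2)) :
    (#(univ.filter fun ω => lam < g ω) : ℝ)
      ≤ (Fintype.card (V → α) : ℝ) * exp (-(lam ^ 2 / (4 * C))) := by
  have h1 := markov g lam (lam / (2 * C)) (by positivity)
  have h2 := h1.trans (h _)
  rw [← le_div_iff₀ (exp_pos _), mul_div_assoc, ← exp_sub] at h2
  refine h2.trans (le_of_eq ?_)
  congr 2
  field_simp
  ring

/-- sub-Gaussian moment generating function gives a two sided tail bound -/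
theorem tail (g : (V → α) → ℝ) (C lam : ℝ) (hC : 0 < C) (hl : 0 ≤ lam)
    (h : ∀ θ : ℝ, ∑ ω, exp (θ * g ω) ≤ (Fintype.card (V → α) : ℝ) * exp (C * θ ^ 2)) :
    (#(univ.filter fun ω => lam < |g ω|) : ℝ)
      ≤ 2 * (Fintype.card (V → α) : ℝ) * exp (-(lam ^ 2 / (4 * C))) := by
  have h1 := tail_one g C lam hC hl h
  have h2 := tail_one (fun ω => - g ω) C lam hC hl (by
    intro θ
    have := h (-θ)
    have e1 : ∀ ω, θ * - g ω = -θ * g ω := fun ω => by ring
    simp only [e1]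
    simpa using this)
  have h3 : univ.filter (fun ω => lam < |g ω|)
      ⊆ univ.filter (fun ω => lam < g ω) ∪ univ.filter (fun ω => lam < - g ω) := by
    intro ω hω
    rw [mem_union, mem_filter, mem_filter]
    rcases lt_abs.1 (mem_filter.1 hω).2 with h | h
    · exact Or.inl ⟨mem_univ _, h⟩
    · exact Or.inr ⟨mem_univ _, h⟩
  have h4 : (#(univ.filter fun ω => lam < |g ω|) : ℝ)
      ≤ #(univ.filter fun ω => lam < g ω) + #(univ.filter fun ω => lam < - g ω) := by
    exact_mod_cast (card_le_card h3).trans (card_union_le _ _)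
  linarith

/-! ### sums of independent symmetric variables -/

theorem single_odd (ρ : (V → α) ≃ (V → α)) (f : (V → α) → ℝ) (b : ℝ)
    (hb : ∀ ω, |f ω| ≤ b) (hodd : ∀ ω, f (ρ ω) = - f ω) (θ : ℝ) :
    ∑ ω, exp (θ * f ω) ≤ (Fintype.card (V → α) : ℝ) * exp (θ ^ 2 * b ^ 2 / 2) := by
  have h1 : ∑ ω, exp (θ * f ω) = ∑ ω, exp (-(θ * f ω)) := by
    rw [← Equiv.sum_comp ρ (fun ω => exp (θ * f ω))]
    refine sum_congr rfl fun ω _ => ?_
    rw [hodd]; ring_nf
  have h2 : ∀ ω, (exp (θ * f ω) + exp (-(θ * f ω))) / 2 ≤ exp (θ ^ 2 * b ^ 2 / 2) := by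
    intro ω
    rw [← Real.cosh_eq]
    refine (Real.cosh_le_exp_half_sq _).trans (exp_le_exp.2 ?_)
    have : (f ω) ^ 2 ≤ b ^ 2 := by
      rw [← sq_abs]
      exact pow_le_pow_left₀ (abs_nonneg _) (hb ω) 2
    have h3 : (θ * f ω) ^ 2 ≤ θ ^ 2 * b ^ 2 := by
      rw [mul_pow]; exact mul_le_mul_of_nonneg_left this (sq_nonneg _)
    linarith
  have h3 : ∑ ω, exp (θ * f ω) = ∑ ω, (exp (θ * f ω) + exp (-(θ * f ω))) / 2 := by
    rw [← sum_div, sum_add_distrib, ← h1]; ring
  rw [h3]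
  calc ∑ ω, (exp (θ * f ω) + exp (-(θ * f ω))) / 2 ≤ ∑ _ω : V → α, exp (θ ^ 2 * b ^ 2 / 2) :=
        sum_le_sum fun ω _ => h2 ω
    _ = _ := by simp

theorem mgf_indep {A : Type*} [DecidableEq A] [Nonempty α] (ρ : (V → α) ≃ (V → α))
    (f : A → (V → α) → ℝ)
    (D : A → Finset V) (b : ℝ) (θ : ℝ) : ∀ s : Finset A,
    (∀ a ∈ s, ∀ a' ∈ s, a ≠ a' → Disjoint (D a) (D a')) →
    (∀ a ∈ s, DepOn (D a) (f a)) → (∀ a ∈ s, ∀ ω, |f a ω| ≤ b) →
    (∀ a ∈ s, ∀ ω, f a (ρ ω) = - f a ω) →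
    ∑ ω, exp (θ * ∑ a ∈ s, f a ω) ≤ (Fintype.card (V → α) : ℝ) * exp (#s * (θ ^ 2 * b ^ 2 / 2)) := by
  intro s
  induction s using Finset.induction_on with
  | empty => intro _ _ _ _; simp
  | insert a s ha ih =>
    intro h1 h2 h3 h4
    have ih' := ih (fun x hx y hy => h1 x (mem_insert_of_mem hx) y (mem_insert_of_mem hy))
      (fun x hx => h2 x (mem_insert_of_mem hx)) (fun x hx => h3 x (mem_insert_of_mem hx))
      (fun x hx => h4 x (mem_insert_of_mem hx))
    have hs := single_odd ρ (f a) b (h3 a (mem_insert_self _ _)) (h4 a (mem_insert_self _ _)) θ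
    have hdisj : Disjoint (D a) (s.biUnion D) := by
      rw [Finset.disjoint_biUnion_right]
      intro x hx
      exact h1 a (mem_insert_self _ _) x (mem_insert_of_mem hx) (by rintro rfl; exact ha hx)
    have hd1 : DepOn (D a) (fun ω => exp (θ * f a ω)) := by
      intro ω ω' h; simp only [h2 a (mem_insert_self _ _) ω ω' h]
    have hd2 : DepOn (s.biUnion D) (fun ω => exp (θ * ∑ x ∈ s, f x ω)) := by
      intro ω ω' h
      have : ∑ x ∈ s, f x ω = ∑ x ∈ s, f x ω' := by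
        refine sum_congr rfl fun x hx => ?_
        exact h2 x (mem_insert_of_mem hx) ω ω' fun v hv => h v (mem_biUnion.2 ⟨x, hx, hv⟩)
      simp only [this]
    have hprod := sum_mul_card hdisj hd1 hd2
    have hcardpos : (0 : ℝ) < (Fintype.card (V → α) : ℝ) := by exact_mod_cast Fintype.card_pos
    have e1 : ∑ ω, exp (θ * ∑ x ∈ insert a s, f x ω)
        = ∑ ω, exp (θ * f a ω) * exp (θ * ∑ x ∈ s, f x ω) := by
      refine sum_congr rfl fun ω _ => ?_
      rw [sum_insert ha, mul_add, exp_add]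
    rw [e1]
    have h5 : (∑ ω, exp (θ * f a ω) * exp (θ * ∑ x ∈ s, f x ω)) * (Fintype.card (V → α) : ℝ)
        ≤ ((Fintype.card (V → α) : ℝ) * exp (θ ^ 2 * b ^ 2 / 2)) *
          ((Fintype.card (V → α) : ℝ) * exp (#s * (θ ^ 2 * b ^ 2 / 2))) := by
      rw [hprod]
      apply mul_le_mul hs ih' (sum_nonneg fun _ _ => (exp_pos _).le) (by positivity)
    rw [card_insert_of_notMem ha]
    have h6 : ((Fintype.card (V → α) : ℝ) * exp (θ ^ 2 * b ^ 2 / 2)) *
          ((Fintype.card (V → α) : ℝ) * exp (#s * (θ ^ 2 * b ^ 2 / 2)))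
        = ((Fintype.card (V → α) : ℝ) * exp ((↑(#s + 1) : ℝ) * (θ ^ 2 * b ^ 2 / 2)))
          * (Fintype.card (V → α) : ℝ) := by
      push_cast
      rw [add_mul, one_mul, exp_add]; ring
    rw [h6] at h5
    exact le_of_mul_le_mul_right h5 hcardpos

/-- Hoeffding for independent symmetric bounded functions. -/
theorem hoeffding {A : Type*} [DecidableEq A] [Nonempty α] (ρ : (V → α) ≃ (V → α))
    (f : A → (V → α) → ℝ)
    (D : A → Finset V) (b : ℝ) (hb : 0 < b) (s : Finset A)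
    (h1 : ∀ a ∈ s, ∀ a' ∈ s, a ≠ a' → Disjoint (D a) (D a'))
    (h2 : ∀ a ∈ s, DepOn (D a) (f a)) (h3 : ∀ a ∈ s, ∀ ω, |f a ω| ≤ b)
    (h4 : ∀ a ∈ s, ∀ ω, f a (ρ ω) = - f a ω) (m : ℝ) (hm : (#s : ℝ) ≤ m) (hm0 : 0 < m)
    (L : ℝ) (hL : 0 ≤ L) :
    (#(univ.filter fun ω => b * sqrt (2 * m * L) < |∑ a ∈ s, f a ω|) : ℝ)
      ≤ 2 * (Fintype.card (V → α) : ℝ) * exp (-L) := by
  have key := tail (fun ω => ∑ a ∈ s, f a ω) (m * b ^ 2 / 2) (b * sqrt (2 * m * L)) (by positivity)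
    (by positivity) (by
      intro θ
      refine (mgf_indep ρ f D b θ s h1 h2 h3 h4).trans ?_
      apply mul_le_mul_of_nonneg_left _ (by positivity)
      apply exp_le_exp.2
      have : (#s : ℝ) * (θ ^ 2 * b ^ 2 / 2) ≤ m * (θ ^ 2 * b ^ 2 / 2) :=
        mul_le_mul_of_nonneg_right hm (by positivity)
      linarith [this])
  refine key.trans (le_of_eq ?_)
  congr 2
  rw [mul_pow, sq_sqrt (by positivity)]
  field_simp
  ring

/-! ### conditionally independent biased signs -/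

section Noise

variable {F : ℕ}

/-- sign determined by the threshold -/
noncomputable def sgn {F : ℕ} (thr : ℕ) (u : Fin (2 * F)) : ℝ := if (u : ℕ) < thr then 1 else -1

/-- centred sign -/
noncomputable def cen {F : ℕ} (thr : ℕ) (u : Fin (2 * F)) : ℝ := sgn thr u - ((thr : ℝ) / F - 1)

theorem sum_sgn (thr : ℕ) (h : thr ≤ 2 * F) :
    ∑ u : Fin (2 * F), sgn thr u = 2 * thr - 2 * F := by
  have h1 : ∑ u : Fin (2 * F), sgn thr u = ∑ i ∈ range (2 * F), (if i < thr then (1 : ℝ) else -1) := by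
    rw [Finset.sum_range]; rfl
  rw [h1, ← Finset.sum_range_add_sum_Ico _ h]
  have h2 : ∑ i ∈ range thr, (if i < thr then (1 : ℝ) else -1) = thr := by
    rw [sum_congr rfl (fun i hi => if_pos (mem_range.1 hi))]; simp
  have h3 : ∑ i ∈ Ico thr (2 * F), (if i < thr then (1 : ℝ) else -1) = -(2 * F - thr) := by
    rw [sum_congr rfl (fun i hi => if_neg (not_lt.2 (mem_Ico.1 hi).1))]
    simp only [sum_const, Nat.card_Ico, nsmul_eq_mul, mul_neg, mul_one, neg_inj]
    rw [Nat.cast_sub h]; push_cast; ring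
  rw [h2, h3]; ring

theorem sum_cen (hF : 0 < F) (thr : ℕ) (h : thr ≤ 2 * F) : ∑ u : Fin (2 * F), cen thr u = 0 := by
  unfold cen
  rw [sum_sub_distrib, sum_sgn thr h]
  simp only [sum_const, card_univ, Fintype.card_fin, nsmul_eq_mul]
  have : (F : ℝ) ≠ 0 := by positivity
  push_cast
  field_simp
  ring

theorem abs_cen_le (hF : 0 < F) (thr : ℕ) (h : thr ≤ 2 * F) (u : Fin (2 * F)) :
    |cen thr u| ≤ 2 := by
  have hF' : (0 : ℝ) < F := by exact_mod_cast hF
  have h1 : (thr : ℝ) / F ≤ 2 := by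
    rw [div_le_iff₀ hF']; exact_mod_cast h
  have h2 : 0 ≤ (thr : ℝ) / F := by positivity
  unfold cen sgn
  rw [abs_le]
  split_ifs <;> constructor <;> linarith

theorem sum_exp_cen (hF : 0 < F) (thr : ℕ) (h : thr ≤ 2 * F) (θ : ℝ) :
    ∑ u : Fin (2 * F), exp (θ * cen thr u) ≤ (2 * F : ℝ) * exp (4 * θ ^ 2) := by
  calc ∑ u : Fin (2 * F), exp (θ * cen thr u)
      ≤ ∑ u : Fin (2 * F), (θ * cen thr u + exp (4 * θ ^ 2)) := by
        apply sum_le_sum
        intro u _
        refine (exp_le_add_exp_sq _).trans ?_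
        have : (θ * cen thr u) ^ 2 ≤ 4 * θ ^ 2 := by
          have h1 := abs_cen_le hF thr h u
          have h2 : (cen thr u) ^ 2 ≤ 2 ^ 2 := by
            rw [← sq_abs]; exact pow_le_pow_left₀ (abs_nonneg _) h1 2
          rw [mul_pow]; nlinarith [sq_nonneg θ]
        have := exp_le_exp.2 this
        linarith
    _ = _ := by
        rw [sum_add_distrib, ← mul_sum, sum_cen hF thr h]; simp

/-- moment generating function of a sum of biased signs whose biases do not depend on the coordinates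
of `T` -/
theorem mgf_noise (hF : 0 < F) (T : Finset V) (thr : V → (V → Fin (2 * F)) → ℕ)
    (hthr : ∀ v ω, thr v ω ≤ 2 * F)
    (hdep : ∀ v ∈ T, DepOn (univ \ T) (thr v)) (θ : ℝ) : ∀ T' ⊆ T,
    ∑ ω : V → Fin (2 * F), exp (θ * ∑ v ∈ T', cen (thr v ω) (ω v))
      ≤ (Fintype.card (V → Fin (2 * F)) : ℝ) * exp (#T' * (4 * θ ^ 2)) := by
  intro T'
  induction T' using Finset.induction_on with
  | empty => intro _; simp
  | insert v0 T' hv0 ih =>
    intro hT'
    have ih' := ih ((subset_insert _ _).trans hT')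
    have hv0T : v0 ∈ T := hT' (mem_insert_self _ _)
    have hNpos : (0 : ℝ) < (2 * F : ℝ) := by positivity
    have hupd : ∀ v ∈ T, ∀ (ω : V → Fin (2 * F)) u, thr v (Function.update ω v0 u) = thr v ω := by
      intro v hv ω u
      apply hdep v hv
      intro w hw
      have : w ≠ v0 := by rintro rfl; exact (mem_sdiff.1 hw).2 hv0T
      simp [this]
    have e1 := resample v0 (fun ω : V → Fin (2 * F) =>
      exp (θ * ∑ v ∈ insert v0 T', cen (thr v ω) (ω v)))
    have e2 : ∀ ω : V → Fin (2 * F), ∀ u : Fin (2 * F),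
        exp (θ * ∑ v ∈ insert v0 T', cen (thr v (Function.update ω v0 u)) (Function.update ω v0 u v))
        = exp (θ * ∑ v ∈ T', cen (thr v ω) (ω v)) * exp (θ * cen (thr v0 ω) u) := by
      intro ω u
      rw [sum_insert hv0, mul_add, exp_add, mul_comm]
      congr 1
      · congr 2
        refine sum_congr rfl fun v hv => ?_
        have hne : v ≠ v0 := by rintro rfl; exact hv0 hv
        rw [hupd v (hT' (mem_insert_of_mem hv))]
        simp [hne]
      · rw [hupd v0 hv0T]; simp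
    have e3 : (2 * F : ℝ) * ∑ ω : V → Fin (2 * F),
        exp (θ * ∑ v ∈ insert v0 T', cen (thr v ω) (ω v))
        = ∑ ω : V → Fin (2 * F), exp (θ * ∑ v ∈ T', cen (thr v ω) (ω v)) *
          ∑ u : Fin (2 * F), exp (θ * cen (thr v0 ω) u) := by
      have hc : (Fintype.card (Fin (2 * F)) : ℝ) = 2 * F := by simp
      rw [← hc, ← e1]
      refine sum_congr rfl fun ω _ => ?_
      rw [mul_sum]
      exact sum_congr rfl fun u _ => e2 ω u
    have e4 : ∑ ω : V → Fin (2 * F), exp (θ * ∑ v ∈ T', cen (thr v ω) (ω v)) *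
          ∑ u : Fin (2 * F), exp (θ * cen (thr v0 ω) u)
        ≤ ∑ ω : V → Fin (2 * F), exp (θ * ∑ v ∈ T', cen (thr v ω) (ω v)) *
          ((2 * F : ℝ) * exp (4 * θ ^ 2)) := by
      apply sum_le_sum
      intro ω _
      exact mul_le_mul_of_nonneg_left (sum_exp_cen hF _ (hthr v0 ω) θ) (exp_pos _).le
    rw [← sum_mul] at e4
    rw [← e3] at e4
    have e5 := mul_le_mul_of_nonneg_right ih' (by positivity : 0 ≤ (2 * F : ℝ) * exp (4 * θ ^ 2))
    have e6 := e4.trans e5
    have e7 : (Fintype.card (V → Fin (2 * F)) : ℝ) * exp (#T' * (4 * θ ^ 2)) *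
        ((2 * F : ℝ) * exp (4 * θ ^ 2)) = (2 * F : ℝ) *
          ((Fintype.card (V → Fin (2 * F)) : ℝ) * exp ((↑(#T' + 1) : ℝ) * (4 * θ ^ 2))) := by
      push_cast
      rw [add_mul, one_mul, exp_add]; ring
    rw [e7] at e6
    rw [card_insert_of_notMem hv0]
    exact le_of_mul_le_mul_left e6 hNpos

theorem noise_tail (hF : 0 < F) (T : Finset V) (thr : V → (V → Fin (2 * F)) → ℕ)
    (hthr : ∀ v ω, thr v ω ≤ 2 * F)
    (hdep : ∀ v ∈ T, DepOn (univ \ T) (thr v)) (m : ℝ) (hm : (#T : ℝ) ≤ m) (hm0 : 0 < m)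
    (L : ℝ) (hL : 0 ≤ L) :
    (#(univ.filter fun ω : V → Fin (2 * F) =>
        4 * sqrt (m * L) < |∑ v ∈ T, cen (thr v ω) (ω v)|) : ℝ)
      ≤ 2 * (Fintype.card (V → Fin (2 * F)) : ℝ) * exp (-L) := by
  have key := tail (fun ω : V → Fin (2 * F) => ∑ v ∈ T, cen (thr v ω) (ω v)) (4 * m)
    (4 * sqrt (m * L)) (by positivity) (by positivity) (by
      intro θ
      refine (mgf_noise hF T thr hthr hdep θ T (Subset.refl _)).trans ?_
      apply mul_le_mul_of_nonneg_left _ (by positivity)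
      apply exp_le_exp.2
      have : (#T : ℝ) * (4 * θ ^ 2) ≤ m * (4 * θ ^ 2) :=
        mul_le_mul_of_nonneg_right hm (by positivity)
      linarith)
  refine key.trans (le_of_eq ?_)
  congr 2
  rw [mul_pow, sq_sqrt (by positivity)]
  field_simp

end Noise

end Pool.Agent.Helper86.BF
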