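import Mathlib

/-!
The incidence graph of a set system.
-/

namespace Pool.Agent.Helper86.BF

/-- The (bipartite) incidence graph of the set system `S`: the point `v` is adjacent to the index `j`
iff `v ∈ S j`. -/
def incGraph {V ι : Type*} (S : ι → Finset V) : SimpleGraph (V ⊕ ι) :=
  SimpleGraph.fromRel fun a b => ∃ v j, a = Sum.inl v ∧ b = Sum.inr j ∧ v ∈ S j

end Pool.Agent.Helper86.BF
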