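import Pool.Agent.Helper86.BF.Girth

/-!
The bad events of the staged colouring, their probabilities and the local lemma.
-/

namespace Pool.Agent.Helper86.BF

open Finset SimpleGraph

namespace Par

variable {V : Type*} [Fintype V] [DecidableEq V] {ι : Type*} [Fintype ι] [DecidableEq ι]
  (P : Par V ι)

/-- the bad event of the set `j` at stage `k` -/
noncomputable def Bad (t : ℕ) (b : ℕ → ℝ) (m : ℕ → ι → ℝ) (L : ℝ) (k : ℕ) (j : ι) :
    Finset (V → Fin (2 * P.F)) := by
  classical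
  exact univ.filter fun ω => 4 * Real.sqrt (m k j * L) < |P.Nsum k j ω| ∨
    b k * Real.sqrt (2 * (t * m k j) * L) < |P.Dsum k j ω| ∨
    ∃ v ∈ P.part k j, b k * Real.sqrt (2 * t * L) < |P.Csum k v ω|

theorem Nsum_dep (k : ℕ) (j : ι) : DepOn (P.dep (k + 1) j) (P.Nsum k j) := by
  intro ω ω' h
  unfold Nsum
  refine sum_congr rfl fun v hv => ?_
  have h1 : ω v = ω' v := h v (P.part_subset_dep k j hv)
  have h2 : P.thr k v ω = P.thr k v ω' :=
    P.thr_dep k v ω ω' fun u hu => h u (P.depV_subset hv hu)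
  rw [h1, h2]

theorem dep_subset_depV {k : ℕ} {v : V} {j' : ι} (hv : v ∈ P.S j') : P.dep k j' ⊆ P.depV k v := by
  intro u hu
  unfold depV
  rw [mem_biUnion]
  exact ⟨j', mem_filter.2 ⟨mem_univ _, hv⟩, hu⟩

theorem Dsum_dep (k : ℕ) (j : ι) : DepOn (P.dep (k + 1) j) (P.Dsum k j) := by
  intro ω ω' h
  unfold Dsum
  refine sum_congr rfl fun p hp => ?_
  have hp' := mem_filter.1 hp
  have hp1 := (mem_product.1 hp'.1).1
  exact P.g_dep k p.2 ω ω' fun u hu =>
    h u (P.depV_subset hp1 (P.dep_subset_depV hp'.2.1 hu))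

theorem Csum_dep (k : ℕ) (v : V) : DepOn (P.depV k v) (P.Csum k v) := by
  intro ω ω' h
  unfold Csum
  refine sum_congr rfl fun j' hj' => ?_
  exact P.g_dep k j' ω ω' fun u hu => h u (P.dep_subset_depV (mem_filter.1 hj').2 hu)

theorem Bad_dep (t : ℕ) (b : ℕ → ℝ) (m : ℕ → ι → ℝ) (L : ℝ) (k : ℕ) (j : ι) :
    DepOn (P.dep (k + 1) j) (fun ω => ω ∈ P.Bad t b m L k j) := by
  intro ω ω' h
  have h1 := P.Nsum_dep k j ω ω' h
  have h2 := P.Dsum_dep k j ω ω' h
  have h3 : ∀ v ∈ P.part k j, P.Csum k v ω = P.Csum k v ω' := fun v hv =>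
    P.Csum_dep k v ω ω' fun u hu => h u (P.depV_subset hv hu)
  simp only [Bad, mem_filter, mem_univ, true_and, h1, h2, eq_iff_iff]
  refine or_congr Iff.rfl (or_congr Iff.rfl ?_)
  constructor
  · rintro ⟨v, hv, hh⟩; exact ⟨v, hv, by rwa [← h3 v hv]⟩
  · rintro ⟨v, hv, hh⟩; exact ⟨v, hv, by rwa [h3 v hv]⟩

theorem card_Bad (hF : 0 < P.F) (t : ℕ) (ht0 : 0 < t)
    (ht : ∀ v, #(univ.filter fun j => v ∈ P.S j) ≤ t) (b : ℕ → ℝ) (m : ℕ → ι → ℝ) (L : ℝ)
    (hL : 0 ≤ L) (k : ℕ) (j : ι) (hb0 : 0 < b k)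
    (hb : ∀ j' ∈ P.prot k, ∀ ω, |P.g k j' ω| ≤ b k) (hm : (#(P.part k j) : ℝ) ≤ m k j)
    (hm0 : 0 < m k j) (hns : NoShort P.S (4 * k + 2)) :
    (#(P.Bad t b m L k j) : ℝ) ≤ (4 + 2 * #(P.part k j)) *
      (Fintype.card (V → Fin (2 * P.F)) : ℝ) * Real.exp (-L) := by
  classical
  haveI : Nonempty (Fin (2 * P.F)) := ⟨⟨0, by omega⟩⟩
  have h1 := noise_tail hF (P.part k j) (P.thr k) (P.thr_le k) (by
    intro v hv
    apply (P.thr_dep k v).mono
    intro u hu
    rw [mem_sdiff]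
    refine ⟨mem_univ _, fun hu' => ?_⟩
    have h1 := P.depV_lab hu
    have h2 := (mem_filter.1 hu').2
    omega) (m k j) hm hm0 L hL
  have ht0' : (0 : ℝ) < t := by exact_mod_cast ht0
  have hpairs : (#(P.pairs k j) : ℝ) ≤ t * m k j := by
    have : #(P.pairs k j) ≤ t * #(P.part k j) := by
      have h2 : P.pairs k j ⊆ (P.part k j).biUnion fun v =>
          (univ.filter fun j' => v ∈ P.S j').image fun j' => (v, j') := by
        intro p hp
        have hp' := mem_filter.1 hp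
        rw [mem_biUnion]
        refine ⟨p.1, (mem_product.1 hp'.1).1, ?_⟩
        rw [mem_image]
        exact ⟨p.2, mem_filter.2 ⟨mem_univ _, hp'.2.1⟩, rfl⟩
      refine (card_le_card h2).trans (card_biUnion_le.trans ?_)
      rw [mul_comm, ← smul_eq_mul]
      apply Finset.sum_le_card_nsmul
      intro v _
      exact card_image_le.trans (ht v)
    calc (#(P.pairs k j) : ℝ) ≤ t * #(P.part k j) := by exact_mod_cast this
      _ ≤ _ := by gcongr
  have h2 := hoeffding P.rho (fun p : V × ι => P.g k p.2) (fun p => P.dep k p.2) (b k) hb0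
    (P.pairs k j) (fun p hp q hq hpq => P.disjoint_pairs hns hp hq hpq)
    (fun p _ => P.g_dep k p.2)
    (fun p hp ω => hb p.2 ((mem_product.1 (mem_filter.1 hp).1).2) ω)
    (fun p _ ω => P.g_rho k p.2 ω) (t * m k j) hpairs (by positivity) L hL
  have h3 : ∀ v ∈ P.part k j, (#(univ.filter fun ω => b k * Real.sqrt (2 * t * L)
      < |P.Csum k v ω|) : ℝ) ≤ 2 * (Fintype.card (V → Fin (2 * P.F)) : ℝ) * Real.exp (-L) := by
    intro v hv
    have hvk := (mem_filter.1 hv).2
    apply hoeffding P.rho (fun j' => P.g k j') (fun j' => P.dep k j') (b k) hb0 (P.pr k v)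
    · intro j1 h1 j2 h2 h12
      exact P.disjoint_dep (hns.mono _ (by omega)) (le_of_eq hvk.symm) h12 (mem_filter.1 h1).2
        (mem_filter.1 h2).2
    · intro j' _; exact P.g_dep k j'
    · intro j' hj' ω; exact hb j' (mem_filter.1 hj').1 ω
    · intro j' _ ω; exact P.g_rho k j' ω
    · have : #(P.pr k v) ≤ t := by
        refine (card_le_card ?_).trans (ht v)
        intro j' hj'
        exact mem_filter.2 ⟨mem_univ _, (mem_filter.1 hj').2⟩
      exact_mod_cast this
    · exact ht0'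
    · exact hL
  have hsub : P.Bad t b m L k j ⊆
      (univ.filter fun ω => 4 * Real.sqrt (m k j * L) < |P.Nsum k j ω|) ∪
      ((univ.filter fun ω => b k * Real.sqrt (2 * (t * m k j) * L) < |P.Dsum k j ω|) ∪
      (P.part k j).biUnion fun v => univ.filter fun ω => b k * Real.sqrt (2 * t * L)
        < |P.Csum k v ω|) := by
    intro ω hω
    simp only [Bad, mem_filter, mem_univ, true_and] at hω
    simp only [mem_union, mem_biUnion, mem_filter, mem_univ, true_and]
    exact hω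
  have h4 : (#((P.part k j).biUnion fun v => univ.filter fun ω => b k * Real.sqrt (2 * t * L)
        < |P.Csum k v ω|) : ℝ)
      ≤ #(P.part k j) * (2 * (Fintype.card (V → Fin (2 * P.F)) : ℝ) * Real.exp (-L)) := by
    calc (#((P.part k j).biUnion fun v => univ.filter fun ω => b k * Real.sqrt (2 * t * L)
        < |P.Csum k v ω|) : ℝ)
        ≤ ∑ v ∈ P.part k j, (#(univ.filter fun ω => b k * Real.sqrt (2 * t * L)
        < |P.Csum k v ω|) : ℝ) := by exact_mod_cast card_biUnion_le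
      _ ≤ _ := by
        rw [← nsmul_eq_mul]
        exact Finset.sum_le_card_nsmul _ _ _ h3
  have h5 : (#(P.Bad t b m L k j) : ℝ)
      ≤ #(univ.filter fun ω => 4 * Real.sqrt (m k j * L) < |P.Nsum k j ω|) +
      (#(univ.filter fun ω => b k * Real.sqrt (2 * (t * m k j) * L) < |P.Dsum k j ω|) +
      #((P.part k j).biUnion fun v => univ.filter fun ω => b k * Real.sqrt (2 * t * L)
        < |P.Csum k v ω|)) := by
    have := (card_le_card hsub).trans ((card_union_le _ _).trans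
      (Nat.add_le_add_left (card_union_le _ _) _))
    exact_mod_cast this
  have h1' : (#(univ.filter fun ω => 4 * Real.sqrt (m k j * L) < |P.Nsum k j ω|) : ℝ)
      ≤ 2 * (Fintype.card (V → Fin (2 * P.F)) : ℝ) * Real.exp (-L) := h1
  have h2' : (#(univ.filter fun ω => b k * Real.sqrt (2 * (t * m k j) * L) < |P.Dsum k j ω|) : ℝ)
      ≤ 2 * (Fintype.card (V → Fin (2 * P.F)) : ℝ) * Real.exp (-L) := h2
  calc (#(P.Bad t b m L k j) : ℝ) ≤ _ := h5
    _ ≤ 2 * (Fintype.card (V → Fin (2 * P.F)) : ℝ) * Real.exp (-L) +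
        (2 * (Fintype.card (V → Fin (2 * P.F)) : ℝ) * Real.exp (-L) +
        #(P.part k j) * (2 * (Fintype.card (V → Fin (2 * P.F)) : ℝ) * Real.exp (-L))) := by
        gcongr
    _ = _ := by ring

/-! ### sizes of the dependency sets -/

theorem card_dep (t s : ℕ) (ht : ∀ v, #(univ.filter fun j => v ∈ P.S j) ≤ t)
    (hs : ∀ j, #(P.S j) ≤ s) (k : ℕ) (j : ι) : #(P.dep k j) + 1 ≤ ((1 + s) * (1 + t)) ^ k := by
  induction k generalizing j with
  | zero => simp [dep]
  | succ k ih =>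
    set H := (1 + s) * (1 + t) with hH
    have hpart : #(P.part k j) ≤ s := (card_le_card (filter_subset _ _)).trans (hs j)
    obtain ⟨B, hB⟩ : ∃ B, B + 1 = H ^ k := ⟨H ^ k - 1, Nat.sub_add_cancel
      (Nat.one_le_pow _ _ (by rw [hH]; positivity))⟩
    have hBj : ∀ j, #(P.dep k j) ≤ B := fun j => by have := ih j; omega
    have h1 : #(P.dep (k + 1) j) ≤ B + s * (1 + t * B) := by
      rw [dep_succ]
      refine (card_union_le _ _).trans (Nat.add_le_add (hBj j) ?_)
      refine card_biUnion_le.trans ?_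
      refine (Finset.sum_le_card_nsmul _ _ (1 + t * B) ?_).trans ?_
      · intro v _
        refine (card_insert_le _ _).trans ?_
        have : #((univ.filter fun j' => v ∈ P.S j').biUnion (P.dep k)) ≤ t * B := by
          refine card_biUnion_le.trans ?_
          refine (Finset.sum_le_card_nsmul _ _ B fun j' _ => hBj j').trans ?_
          rw [smul_eq_mul]
          exact Nat.mul_le_mul_right _ (ht v)
        omega
      · rw [smul_eq_mul]; exact Nat.mul_le_mul_right _ hpart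
    rw [pow_succ, ← hB]
    have h2 : B + s * (1 + t * B) + 1 ≤ (B + 1) * H := by
      rw [hH]; nlinarith [Nat.zero_le (B * s), Nat.zero_le (B * t), Nat.zero_le (s * t)]
    omega

theorem card_rev (t s : ℕ) (ht : ∀ v, #(univ.filter fun j => v ∈ P.S j) ≤ t)
    (hs : ∀ j, #(P.S j) ≤ s) (k : ℕ) (x : V) :
    #(univ.filter fun j => x ∈ P.dep k j) + 1 ≤ ((1 + s) * (1 + t)) ^ k := by
  induction k with
  | zero => simp [dep]
  | succ k ih =>
    set H := (1 + s) * (1 + t) with hH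
    obtain ⟨B, hB⟩ : ∃ B, B + 1 = H ^ k := ⟨H ^ k - 1, Nat.sub_add_cancel
      (Nat.one_le_pow _ _ (by rw [hH]; positivity))⟩
    have hBj : #(univ.filter fun j => x ∈ P.dep k j) ≤ B := by omega
    have hsub : (univ.filter fun j => x ∈ P.dep (k + 1) j) ⊆
        (univ.filter fun j => x ∈ P.dep k j) ∪ ((univ.filter fun j => x ∈ P.S j) ∪
        (univ.filter fun j => x ∈ P.dep k j).biUnion fun j' =>
          (P.S j').biUnion fun v => univ.filter fun j => v ∈ P.S j) := by
      intro j hj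
      have hj' := (mem_filter.1 hj).2
      rw [dep_succ, mem_union, mem_biUnion] at hj'
      simp only [mem_union, mem_biUnion, mem_filter, mem_univ, true_and]
      rcases hj' with h | ⟨v, hv, h⟩
      · exact Or.inl h
      · rw [mem_insert, mem_biUnion] at h
        rcases h with rfl | ⟨j', hj', h⟩
        · exact Or.inr (Or.inl (mem_filter.1 hv).1)
        · exact Or.inr (Or.inr ⟨j', h, v, (mem_filter.1 hj').2, (mem_filter.1 hv).1⟩)
    have h1 : #(univ.filter fun j => x ∈ P.dep (k + 1) j) ≤ B + (t + B * (s * t)) := by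
      refine (card_le_card hsub).trans ((card_union_le _ _).trans (Nat.add_le_add hBj ?_))
      refine (card_union_le _ _).trans (Nat.add_le_add (ht x) ?_)
      refine card_biUnion_le.trans ?_
      refine (Finset.sum_le_card_nsmul _ _ (s * t) ?_).trans ?_
      · intro j' _
        refine card_biUnion_le.trans ?_
        refine (Finset.sum_le_card_nsmul _ _ t fun v _ => ht v).trans ?_
        rw [smul_eq_mul]; exact Nat.mul_le_mul_right _ (hs j')
      · rw [smul_eq_mul]; exact Nat.mul_le_mul_right _ hBj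
    rw [pow_succ, ← hB]
    have h2 : B + (t + B * (s * t)) + 1 ≤ (B + 1) * H := by
      rw [hH]; nlinarith [Nat.zero_le (B * s), Nat.zero_le (B * t), Nat.zero_le (s * t)]
    omega

/-- existence of a good outcome -/
theorem exists_good (hF : 0 < P.F) (t : ℕ) (ht0 : 0 < t)
    (ht : ∀ v, #(univ.filter fun j => v ∈ P.S j) ≤ t) (s : ℕ) (hs : ∀ j, #(P.S j) ≤ s)
    (K : ℕ) (b : ℕ → ℝ) (m : ℕ → ι → ℝ) (L : ℝ)
    (hL : 0 ≤ L) (hb0 : ∀ k ≤ K, 0 < b k)
    (hb : ∀ k ≤ K, ∀ j' ∈ P.prot k, ∀ ω, |P.g k j' ω| ≤ b k)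
    (hm : ∀ k ≤ K, ∀ j, (#(P.part k j) : ℝ) ≤ m k j)
    (hm0 : ∀ k ≤ K, ∀ j, 0 < m k j) (hns : NoShort P.S (4 * K + 2))
    (hLL : 4 * ((K + 1 : ℕ) * (((1 + s) * (1 + t)) ^ (2 * (K + 1)) : ℕ) : ℝ) * (4 + 2 * s)
      * Real.exp (-L) ≤ 1) :
    ∃ ω, ∀ k ≤ K, ∀ j, ω ∉ P.Bad t b m L k j := by
  classical
  haveI : Nonempty (Fin (2 * P.F)) := ⟨⟨0, by omega⟩⟩
  set H := (1 + s) * (1 + t) with hH
  have hHpos : 0 < H := by rw [hH]; positivity
  have hp : ∀ q : Fin (K + 1) × ι, 4 * ((K + 1) * H ^ (2 * (K + 1))) *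
      #(P.Bad t b m L q.1 q.2) ≤ Fintype.card (V → Fin (2 * P.F)) := by
    intro q
    have hk : (q.1 : ℕ) ≤ K := by have := q.1.2; omega
    have h1 := P.card_Bad hF t ht0 ht b m L hL q.1 q.2 (hb0 _ hk) (hb _ hk) (hm _ hk _)
      (hm0 _ hk _) (hns.mono _ (by omega))
    have hpart : (#(P.part q.1 q.2) : ℝ) ≤ s := by
      exact_mod_cast (card_le_card (filter_subset _ _)).trans (hs q.2)
    have hcardpos : (0 : ℝ) < (Fintype.card (V → Fin (2 * P.F)) : ℝ) := by
      exact_mod_cast Fintype.card_pos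
    have h2 : ((4 * ((K + 1) * H ^ (2 * (K + 1))) * #(P.Bad t b m L q.1 q.2) : ℕ) : ℝ)
        ≤ (Fintype.card (V → Fin (2 * P.F)) : ℝ) := by
      push_cast
      push_cast at hLL
      calc (4 : ℝ) * (((K : ℝ) + 1) * (H : ℝ) ^ (2 * (K + 1))) * #(P.Bad t b m L q.1 q.2)
          ≤ (4 : ℝ) * (((K : ℝ) + 1) * (H : ℝ) ^ (2 * (K + 1))) *
            ((4 + 2 * s) * (Fintype.card (V → Fin (2 * P.F)) : ℝ) * Real.exp (-L)) := by
            gcongr
            refine h1.trans ?_
            gcongr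
        _ = (4 * (((K : ℝ) + 1) * (H : ℝ) ^ (2 * (K + 1))) * (4 + 2 * s) * Real.exp (-L)) *
            (Fintype.card (V → Fin (2 * P.F)) : ℝ) := by ring
        _ ≤ 1 * (Fintype.card (V → Fin (2 * P.F)) : ℝ) := by gcongr
        _ = _ := one_mul _
    exact_mod_cast h2
  have hd : ∀ q : Fin (K + 1) × ι, #(univ.filter fun q' : Fin (K + 1) × ι =>
        ¬ Disjoint (P.dep ((q.1 : ℕ) + 1) q.2) (P.dep ((q'.1 : ℕ) + 1) q'.2)) ≤
        (K + 1) * H ^ (2 * (K + 1)) := by
    intro q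
    have hk : (q.1 : ℕ) + 1 ≤ K + 1 := by have := q.1.2; omega
    have hsub : (univ.filter fun q' : Fin (K + 1) × ι =>
        ¬ Disjoint (P.dep ((q.1 : ℕ) + 1) q.2) (P.dep ((q'.1 : ℕ) + 1) q'.2)) ⊆
        (univ : Finset (Fin (K + 1))) ×ˢ ((P.dep (K + 1) q.2).biUnion fun x =>
          univ.filter fun j' => x ∈ P.dep (K + 1) j') := by
      intro q' hq'
      have h1 := (mem_filter.1 hq').2
      rw [Finset.not_disjoint_iff] at h1
      obtain ⟨x, hx, hx'⟩ := h1
      rw [mem_product]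
      refine ⟨mem_univ _, ?_⟩
      rw [mem_biUnion]
      have hk' : (q'.1 : ℕ) + 1 ≤ K + 1 := by have := q'.1.2; omega
      exact ⟨x, P.dep_mono hk _ hx, mem_filter.2 ⟨mem_univ _, P.dep_mono hk' _ hx'⟩⟩
    refine (card_le_card hsub).trans ?_
    rw [card_product, card_univ, Fintype.card_fin]
    apply Nat.mul_le_mul_left
    refine card_biUnion_le.trans ?_
    refine (Finset.sum_le_card_nsmul _ _ (H ^ (K + 1)) ?_).trans ?_
    · intro x _
      have := P.card_rev t s ht hs (K + 1) x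
      rw [← hH] at this
      omega
    · have h7 : H ^ (2 * (K + 1)) = H ^ (K + 1) * H ^ (K + 1) := by
        rw [two_mul, pow_add]
      rw [smul_eq_mul, h7]
      apply Nat.mul_le_mul_right
      have := P.card_dep t s ht hs (K + 1) q.2
      rw [← hH] at this
      omega
  obtain ⟨ω, hω⟩ := lll (J := Fin (K + 1) × ι) (fun q => P.Bad t b m L q.1 q.2)
    (fun q => P.dep ((q.1 : ℕ) + 1) q.2) (fun q => P.Bad_dep t b m L q.1 q.2)
    ((K + 1) * H ^ (2 * (K + 1))) (by positivity) hp hd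
  exact ⟨ω, fun k hk j => hω (⟨k, by omega⟩, j)⟩

end Par

end Pool.Agent.Helper86.BF
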