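import Pool.Agent.Helper86.BF.Stages

/-!
Choice of the parameters and the final theorem.
-/

namespace Pool.Agent.Helper86.BF

open Finset SimpleGraph

universe u v

section core

variable {V : Type u} [Fintype V] [DecidableEq V] {ι : Type v} [Fintype ι] [DecidableEq ι]

theorem core (S : ι → Finset V) (t s K : ℕ) (y L : ℝ) (ht0 : 0 < t)
    (ht : ∀ v, #(univ.filter fun j => v ∈ S j) ≤ t) (hs : ∀ j, #(S j) ≤ s)
    (hy : 2 ≤ y) (hL : 0 ≤ L) (hyL : 64 * (4 * Real.sqrt L + 1) ^ 2 * L ≤ y)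
    (hy5 : 4 * (2 * (K : ℝ) + 1) ≤ y ^ 5) (hsK : (s : ℝ) ≤ t * y ^ (4 * K + 8))
    (hLL : 4 * ((K + 1 : ℕ) * (((1 + s) * (1 + t)) ^ (2 * (K + 1)) : ℕ) : ℝ) * (4 + 2 * s)
      * Real.exp (-L) ≤ 1) (hns : NoShort S (4 * K + 2)) :
    ∃ χ : V → ℤ, (∀ v, χ v = 1 ∨ χ v = -1) ∧ ∀ j, |((∑ v ∈ S j, χ v : ℤ) : ℝ)| ≤
      (4 * Real.sqrt L + 1) * (K + 1) * Real.sqrt (t * y ^ 9 + (2 * K + 1) * t) := by
  obtain ⟨lab, hlab1, hlab2⟩ := exists_labels S t ht K (Qf y K) Qf_zero (fun k hk => Qf_pos hy hk)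
    (fun k hk => by
      have h1 := Qf_half (K := K) hy hk
      have h2 := Qf_nonneg (K := K) hy k
      linarith) Qf_last
  set c : ℝ := 4 * Real.sqrt L + 1 with hc
  have hc0 : 0 < c := by rw [hc]; positivity
  let P : Par V ι :=
    { S := S
      lab := lab
      prot := protf S t y
      cap := fun k j => ⌊c * Real.sqrt (mf S t y K (k - 1) j)⌋₊
      F := s.factorial }
  have hF : 0 < P.F := Nat.factorial_pos s
  have hy0 : 0 < y := by linarith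
  have ht' : (0 : ℝ) < t := by exact_mod_cast ht0
  obtain ⟨ω, hω⟩ := P.exists_good hF t ht0 ht s hs K
    (fun _ => Real.sqrt (32 * c ^ 2 / (t * y))) (mf S t y K) L hL
    (fun k _ => Real.sqrt_pos.2 (by positivity))
    (fun k hk j hj ω => g_le t y c K P rfl (fun _ _ => rfl) hy hc0.le ht0 hy5 hlab2 hk hj ω)
    (fun k hk j => by
      have h1 := (abs_le.1 (hlab2 k hk j)).2
      show (#((S j).filter fun v => lab v = k) : ℝ) ≤ mf S t y K k j
      unfold mf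
      linarith)
    (fun k hk j => mf_pos S t y K hy ht0 hk j) hns hLL
  refine ⟨P.col (K + 1) ω, fun v => P.col_pm (Nat.lt_succ_of_le (hlab1 v)) ω, fun j => ?_⟩
  exact stages t s y c L K P rfl rfl (fun _ _ => rfl) hy hc ht0 hL hyL hy5 hs hsK hlab2 ω hω j

end core

/-! ### asymptotics -/

theorem eventually_params (A K : ℕ) (δ : ℝ) (hδ : 0 < δ) (E : ℕ) (hE : 0 < E) :
    ∃ t0 : ℕ, ∀ t : ℕ, t0 ≤ t → 4 ≤ t ∧ K + 1 ≤ t ∧ (2 : ℝ) ≤ (t : ℝ) ^ (δ / 5) ∧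
      4 * (2 * (K : ℝ) + 1) ≤ (t : ℝ) ^ δ ∧ 1 ≤ E * Real.log t ∧
      1600 * (E * Real.log t) ^ 2 ≤ (t : ℝ) ^ (δ / 5) := by
  have hnat : Filter.Tendsto (fun n : ℕ => (n : ℝ)) Filter.atTop Filter.atTop :=
    tendsto_natCast_atTop_atTop
  have h1 : ∀ᶠ t : ℕ in Filter.atTop, 4 ≤ t := Filter.eventually_ge_atTop 4
  have h2 : ∀ᶠ t : ℕ in Filter.atTop, K + 1 ≤ t := Filter.eventually_ge_atTop _
  have h3 : ∀ᶠ t : ℕ in Filter.atTop, (2 : ℝ) ≤ (t : ℝ) ^ (δ / 5) :=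
    ((tendsto_rpow_atTop (by positivity)).comp hnat).eventually_ge_atTop 2
  have h4 : ∀ᶠ t : ℕ in Filter.atTop, 4 * (2 * (K : ℝ) + 1) ≤ (t : ℝ) ^ δ :=
    ((tendsto_rpow_atTop hδ).comp hnat).eventually_ge_atTop _
  have h5 : ∀ᶠ t : ℕ in Filter.atTop, ‖Real.log t‖ ≤ (1 / (40 * E) : ℝ) * ‖(t : ℝ) ^ (δ / 10)‖ :=
    hnat.eventually ((isLittleO_log_rpow_atTop (r := δ / 10) (by positivity)).bound
      (by positivity))
  have h6 : ∀ᶠ t : ℕ in Filter.atTop, 3 ≤ t := Filter.eventually_ge_atTop 3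
  obtain ⟨t0, ht0⟩ := Filter.eventually_atTop.1 (h1.and (h2.and (h3.and (h4.and (h5.and h6)))))
  refine ⟨t0, fun t ht => ?_⟩
  obtain ⟨h1, h2, h3, h4, h5, h6⟩ := ht0 t ht
  have hEpos : (0 : ℝ) < E := by exact_mod_cast hE
  have hE1 : (1 : ℝ) ≤ E := by exact_mod_cast hE
  have ht3 : (3 : ℝ) ≤ t := by exact_mod_cast h6
  have hlog1 : 1 ≤ Real.log t := by
    rw [Real.le_log_iff_exp_le (by linarith)]
    have := Real.exp_one_lt_d9
    linarith
  refine ⟨h1, h2, h3, h4, by nlinarith, ?_⟩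
  have hpos : 0 < (t : ℝ) ^ (δ / 10) := Real.rpow_pos_of_pos (by linarith) _
  rw [Real.norm_of_nonneg (by linarith), Real.norm_of_nonneg hpos.le] at h5
  have h7 : (t : ℝ) ^ (δ / 5) = ((t : ℝ) ^ (δ / 10)) ^ 2 := by
    rw [← Real.rpow_natCast, ← Real.rpow_mul (by linarith)]
    congr 1
    push_cast; ring
  rw [h7]
  have h8 : 40 * (E * Real.log t) ≤ (t : ℝ) ^ (δ / 10) := by
    calc 40 * (E * Real.log t) ≤ 40 * (E * ((1 / (40 * E) : ℝ) * (t : ℝ) ^ (δ / 10))) := by gcongr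
      _ = _ := by field_simp
  calc 1600 * (E * Real.log t) ^ 2 = (40 * (E * Real.log t)) ^ 2 := by ring
    _ ≤ _ := by
      gcongr
  
theorem lll_numeric (A K t : ℕ) (h4 : 4 ≤ t) (hK : K + 1 ≤ t) :
    4 * ((K + 1 : ℕ) * (((1 + t ^ (A + 1)) * (1 + t)) ^ (2 * (K + 1)) : ℕ) : ℝ)
      * (4 + 2 * ((t ^ (A + 1) : ℕ) : ℝ))
      * Real.exp (-(((2 * (K + 1) * (A + 3) + A + 5 : ℕ) : ℝ) * Real.log t)) ≤ 1 := by
  have ht : (0 : ℝ) < t := by positivity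
  have h1 : Real.exp (-(((2 * (K + 1) * (A + 3) + A + 5 : ℕ) : ℝ) * Real.log t))
      = ((t : ℝ) ^ (2 * (K + 1) * (A + 3) + A + 5))⁻¹ := by
    rw [Real.exp_neg, mul_comm, Real.exp_mul, Real.exp_log ht, Real.rpow_natCast]
  rw [h1]
  have h2 : 4 * ((K + 1) * ((1 + t ^ (A + 1)) * (1 + t)) ^ (2 * (K + 1))) * (4 + 2 * t ^ (A + 1))
      ≤ t ^ (2 * (K + 1) * (A + 3) + A + 5) := by
    have ha : (1 + t ^ (A + 1)) * (1 + t) ≤ t ^ (A + 3) := by
      have h5 : 1 ≤ t ^ (A + 1) := Nat.one_le_pow _ _ (by omega)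
      have h6 : t ^ (A + 3) = t ^ (A + 1) * (t * t) := by ring
      rw [h6]
      calc (1 + t ^ (A + 1)) * (1 + t) ≤ (2 * t ^ (A + 1)) * (2 * t) := by gcongr <;> omega
        _ = t ^ (A + 1) * (4 * t) := by ring
        _ ≤ _ := by gcongr
    have hb : ((1 + t ^ (A + 1)) * (1 + t)) ^ (2 * (K + 1)) ≤ t ^ (2 * (K + 1) * (A + 3)) := by
      calc _ ≤ (t ^ (A + 3)) ^ (2 * (K + 1)) := by gcongr
        _ = _ := by rw [← pow_mul]; ring_nf
    have hcc : 4 * (K + 1) * (4 + 2 * t ^ (A + 1)) ≤ t ^ (A + 5) := by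
      have h5 : 1 ≤ t ^ (A + 1) := Nat.one_le_pow _ _ (by omega)
      have h7 : 24 ≤ t ^ 3 := by
        calc 24 ≤ 4 ^ 3 := by norm_num
          _ ≤ _ := by gcongr
      calc 4 * (K + 1) * (4 + 2 * t ^ (A + 1)) ≤ 4 * t * (6 * t ^ (A + 1)) := by
            gcongr
            omega
        _ = 24 * t ^ (A + 2) := by ring
        _ ≤ t ^ 3 * t ^ (A + 2) := by gcongr
        _ = _ := by ring
    calc 4 * ((K + 1) * ((1 + t ^ (A + 1)) * (1 + t)) ^ (2 * (K + 1))) * (4 + 2 * t ^ (A + 1))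
        = (4 * (K + 1) * (4 + 2 * t ^ (A + 1))) * ((1 + t ^ (A + 1)) * (1 + t)) ^ (2 * (K + 1)) := by
          ring
      _ ≤ t ^ (A + 5) * t ^ (2 * (K + 1) * (A + 3)) := by gcongr
      _ = _ := by rw [← pow_add]; ring_nf
  rw [← div_eq_mul_inv, div_le_one (by positivity)]
  exact_mod_cast h2

/-- all sets of size at most `t ^ (A + 1)` -/
theorem bounded_sizes (A : ℕ) (δ : ℝ) (hδ : 0 < δ) : ∃ (r : ℕ) (C : ℝ), 0 < C ∧
    ∀ (V : Type u) (ι : Type v) [Fintype V] [DecidableEq V] [Fintype ι] [DecidableEq ι]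
      (S : ι → Finset V) (t : ℕ), 1 ≤ t → (∀ v, #(univ.filter fun j => v ∈ S j) ≤ t) →
      (∀ j, #(S j) ≤ t ^ (A + 1)) → NoShort S r →
      ∃ χ : V → ℤ, (∀ v, χ v = 1 ∨ χ v = -1) ∧
        ∀ j, |((∑ v ∈ S j, χ v : ℤ) : ℝ)| ≤ C * (t : ℝ) ^ (1 / 2 + δ) := by
  obtain ⟨K, hK⟩ : ∃ K : ℕ, (A : ℝ) ≤ 4 * K * δ / 5 := by
    obtain ⟨K, hK⟩ := exists_nat_ge ((A : ℝ) * 5 / (4 * δ))
    refine ⟨K, ?_⟩
    rw [div_le_iff₀ (by positivity)] at hK
    linarith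
  obtain ⟨t0, ht0⟩ := eventually_params A K δ hδ (2 * (K + 1) * (A + 3) + A + 5) (by omega)
  refine ⟨4 * K + 2, 2 * (K + 1) + (t0 : ℝ) ^ (A + 1), by positivity, ?_⟩
  intro V ι _ _ _ _ S t ht1 ht hs hns
  have htpos : (0 : ℝ) < t := by exact_mod_cast ht1
  have ht1' : (1 : ℝ) ≤ t := by exact_mod_cast ht1
  have hone : 1 ≤ (t : ℝ) ^ (1 / 2 + δ) := Real.one_le_rpow ht1' (by positivity)
  rcases Nat.lt_or_ge t t0 with hlt | hge
  · refine ⟨fun _ => 1, fun _ => Or.inl rfl, fun j => ?_⟩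
    have h1 : ((∑ v ∈ S j, (1 : ℤ) : ℤ) : ℝ) = #(S j) := by simp
    rw [h1, abs_of_nonneg (by positivity)]
    have h2 : (#(S j) : ℝ) ≤ (t0 : ℝ) ^ (A + 1) := by
      calc (#(S j) : ℝ) ≤ ((t ^ (A + 1) : ℕ) : ℝ) := by exact_mod_cast hs j
        _ ≤ _ := by
          push_cast
          gcongr
    have h3 : (0 : ℝ) ≤ (t0 : ℝ) ^ (A + 1) := by positivity
    have h4 : (0 : ℝ) ≤ 2 * (K + 1) := by positivity
    nlinarith
  · obtain ⟨h1, h2, h3, h4, h5, h6⟩ := ht0 t hge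
    set E : ℕ := 2 * (K + 1) * (A + 3) + A + 5 with hE
    set L : ℝ := E * Real.log t with hL
    set y : ℝ := (t : ℝ) ^ (δ / 5) with hy
    have hy5 : y ^ 5 = (t : ℝ) ^ δ := by
      rw [hy, ← Real.rpow_natCast, ← Real.rpow_mul htpos.le]
      congr 1; push_cast; ring
    have hsq : Real.sqrt L ^ 2 = L := Real.sq_sqrt (by linarith)
    have hsq1 : 1 ≤ Real.sqrt L := Real.one_le_sqrt.2 h5
    have hc2 : (4 * Real.sqrt L + 1) ^ 2 ≤ 25 * L := by nlinarith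
    have hyL : 64 * (4 * Real.sqrt L + 1) ^ 2 * L ≤ y := by
      calc 64 * (4 * Real.sqrt L + 1) ^ 2 * L ≤ 64 * (25 * L) * L := by gcongr
        _ = 1600 * L ^ 2 := by ring
        _ ≤ y := h6
    have hsK : ((t ^ (A + 1) : ℕ) : ℝ) ≤ t * y ^ (4 * K + 8) := by
      have h7 : y ^ (4 * K + 8) = (t : ℝ) ^ (δ / 5 * (4 * K + 8)) := by
        rw [hy, ← Real.rpow_natCast, ← Real.rpow_mul htpos.le]
        congr 1; push_cast; ring
      rw [h7]
      push_cast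
      rw [pow_succ, mul_comm]
      gcongr
      rw [← Real.rpow_natCast]
      apply Real.rpow_le_rpow_of_exponent_le ht1'
      nlinarith
    obtain ⟨χ, hχ1, hχ2⟩ := core S t (t ^ (A + 1)) K y L ht1 ht hs h3 (by linarith) hyL
      (by rw [hy5]; exact h4) hsK (lll_numeric A K t h1 h2) hns
    refine ⟨χ, hχ1, fun j => (hχ2 j).trans ?_⟩
    have hcy : 4 * Real.sqrt L + 1 ≤ Real.sqrt y := by
      apply Real.le_sqrt_of_sq_le
      have : (4 * Real.sqrt L + 1) ^ 2 * 1 ≤ (4 * Real.sqrt L + 1) ^ 2 * (64 * L) := by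
        gcongr
        linarith
      nlinarith
    have hy9 : (2 * (K : ℝ) + 1) ≤ y ^ 9 := by
      have h7 : y ^ 5 ≤ y ^ 9 := pow_le_pow_right₀ (by linarith) (by norm_num)
      have h8 : (0 : ℝ) ≤ K := by positivity
      rw [hy5] at h7
      linarith
    have hy0 : 0 < y := by linarith
    have hM : t * y ^ 9 + (2 * K + 1) * t ≤ 4 * (t * y ^ 9) := by nlinarith
    have hsqrt : Real.sqrt (t * y ^ 9 + (2 * K + 1) * t) ≤ 2 * Real.sqrt (t * y ^ 9) := by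
      refine (Real.sqrt_le_sqrt hM).trans (le_of_eq ?_)
      rw [Real.sqrt_mul (by norm_num)]
      congr 1
      rw [show (4 : ℝ) = 2 ^ 2 by norm_num]
      exact Real.sqrt_sq (by norm_num)
    have hfin : Real.sqrt y * Real.sqrt (t * y ^ 9) = (t : ℝ) ^ (1 / 2 + δ) := by
      rw [← Real.sqrt_mul hy0.le]
      have h7 : y * (t * y ^ 9) = t * (y ^ 5) ^ 2 := by ring
      rw [h7, Real.sqrt_mul htpos.le, Real.sqrt_sq (by positivity), hy5, Real.sqrt_eq_rpow,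
        ← Real.rpow_add htpos]
    calc (4 * Real.sqrt L + 1) * (K + 1) * Real.sqrt (t * y ^ 9 + (2 * K + 1) * t)
        ≤ Real.sqrt y * (K + 1) * (2 * Real.sqrt (t * y ^ 9)) := by gcongr
      _ = 2 * (K + 1) * (Real.sqrt y * Real.sqrt (t * y ^ 9)) := by ring
      _ = 2 * (K + 1) * (t : ℝ) ^ (1 / 2 + δ) := by rw [hfin]
      _ ≤ _ := by
        gcongr
        have : (0 : ℝ) ≤ (t0 : ℝ) ^ (A + 1) := by positivity
        linarith

/-! ### splitting large sets into blocks -/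

theorem exists_block {V : Type u} [DecidableEq V] (A : Finset V) (s : ℕ) (hs : 0 < s) :
    ∃ f : V → ℕ, (∀ v ∈ A, f v ≤ #A / s) ∧ ∀ i, #(A.filter fun v => f v = i) ≤ s := by
  classical
  let e := A.equivFin
  refine ⟨fun v => if h : v ∈ A then (e ⟨v, h⟩ : ℕ) / s else 0, ?_, ?_⟩
  · intro v hv
    simp only [hv, dif_pos]
    exact Nat.div_le_div_right (e ⟨v, hv⟩).2.le
  · intro i
    have h1 : #(A.filter fun v => (if h : v ∈ A then (e ⟨v, h⟩ : ℕ) / s else 0) = i)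
        ≤ #(Finset.Ico (i * s) ((i + 1) * s)) := by
      apply Finset.card_le_card_of_injOn (fun v => if h : v ∈ A then (e ⟨v, h⟩ : ℕ) else 0)
      · intro v hv
        have hv' := mem_filter.1 (mem_coe.1 hv)
        have hvA := hv'.1
        have h2 := hv'.2
        simp only [hvA, dif_pos] at h2 ⊢
        rw [mem_coe, mem_Ico]
        rw [Nat.div_eq_iff hs] at h2
        constructor
        · exact h2.1
        · rw [Nat.add_mul, one_mul]
          omega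
      · intro v hv w hw hvw
        have hv' := (mem_filter.1 (mem_coe.1 hv)).1
        have hw' := (mem_filter.1 (mem_coe.1 hw)).1
        simp only [hv', hw', dif_pos] at hvw
        have := e.injective (Fin.ext hvw)
        simpa using this
    refine h1.trans ?_
    rw [Nat.card_Ico, Nat.add_mul, one_mul, Nat.add_sub_cancel_left]

theorem all_sizes (A : ℕ) (δ : ℝ) (hδ : 0 < δ) (hδ' : δ ≤ 1 / 2) : ∃ (r : ℕ) (C : ℝ), 0 < C ∧
    ∀ (V : Type u) (ι : Type v) [Fintype V] [DecidableEq V] [Fintype ι] [DecidableEq ι]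
      (S : ι → Finset V) (t : ℕ), 1 ≤ t → (∀ v, #(univ.filter fun j => v ∈ S j) ≤ t) →
      NoShort S r →
      ∃ χ : V → ℤ, (∀ v, χ v = 1 ∨ χ v = -1) ∧
        ∀ j, |((∑ v ∈ S j, χ v : ℤ) : ℝ)| ≤
          C * ((t : ℝ) ^ (1 / 2 + δ) + #(S j) / (t : ℝ) ^ A) := by
  obtain ⟨r, C, hC, hmain⟩ := bounded_sizes.{u, v} A δ hδ
  refine ⟨r, C, hC, ?_⟩
  intro V ι _ _ _ _ S t ht1 ht hns
  classical
  have htpos : (0 : ℝ) < t := by exact_mod_cast ht1
  have ht1' : (1 : ℝ) ≤ t := by exact_mod_cast ht1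
  set s := t ^ (A + 1) with hs
  have hspos : 0 < s := Nat.pos_of_ne_zero (by rw [hs]; exact (pow_pos ht1 _).ne')
  have hblock := fun j => exists_block (S j) s hspos
  choose f hf1 hf2 using hblock
  let S' : ι × Fin (Fintype.card V + 1) → Finset V := fun q => (S q.1).filter fun v => f q.1 v = q.2
  have hsum : ∀ (χ : V → ℤ) (j : ι), ∑ v ∈ S j, χ v
      = ∑ i ∈ range (#(S j) / s + 1), ∑ v ∈ (S j).filter (fun v => f j v = i), χ v := by
    intro χ j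
    rw [sum_fiberwise_of_maps_to]
    intro v hv
    rw [mem_range]
    have := hf1 j v hv
    omega
  obtain ⟨χ, hχ1, hχ2⟩ := hmain V (ι × Fin (Fintype.card V + 1)) S' t ht1 (by
    intro v
    refine le_trans ?_ (ht v)
    apply Finset.card_le_card_of_injOn Prod.fst
    · intro q hq
      have hq' := (mem_filter.1 (mem_coe.1 hq)).2
      have hq'' := (mem_filter.1 hq').1
      exact mem_coe.2 (mem_filter.2 ⟨mem_univ _, hq''⟩)
    · intro q hq q' hq' hqq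
      have h1 := (mem_filter.1 (mem_filter.1 (mem_coe.1 hq)).2).2
      have h2 := (mem_filter.1 (mem_filter.1 (mem_coe.1 hq')).2).2
      obtain ⟨j, i⟩ := q
      obtain ⟨j', i'⟩ := q'
      simp only at hqq h1 h2
      subst hqq
      rw [h1] at h2
      exact Prod.ext rfl (Fin.ext h2)) (fun q => hf2 q.1 q.2)
    (noShort_refine S S' Prod.fst (fun q => filter_subset _ _) (by
      intro q q' hne hqq
      rw [Finset.disjoint_left]
      intro v hv hv'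
      have h1 := (mem_filter.1 hv).2
      have h2 := (mem_filter.1 hv').2
      obtain ⟨j, i⟩ := q
      obtain ⟨j', i'⟩ := q'
      simp only at hqq h1 h2
      subst hqq
      rw [h1] at h2
      exact hne (Prod.ext rfl (Fin.ext h2))) hns)
  refine ⟨χ, hχ1, fun j => ?_⟩
  have hcard : #(S j) ≤ Fintype.card V := card_le_univ _
  have hb : ∀ i ∈ range (#(S j) / s + 1), |((∑ v ∈ (S j).filter (fun v => f j v = i), χ v : ℤ) : ℝ)|
      ≤ C * (t : ℝ) ^ (1 / 2 + δ) := by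
    intro i hi
    have hi' : i < Fintype.card V + 1 := by
      have h1 := mem_range.1 hi
      have h2 : #(S j) / s ≤ #(S j) := Nat.div_le_self _ _
      omega
    exact hχ2 (j, ⟨i, hi'⟩)
  rw [hsum]
  push_cast
  have h1 : |∑ i ∈ range (#(S j) / s + 1), ∑ v ∈ (S j).filter (fun v => f j v = i), (χ v : ℝ)|
      ≤ ∑ i ∈ range (#(S j) / s + 1), C * (t : ℝ) ^ (1 / 2 + δ) := by
    refine (abs_sum_le_sum_abs _ _).trans (sum_le_sum fun i hi => ?_)
    have := hb i hi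
    push_cast at this
    exact this
  refine h1.trans ?_
  rw [sum_const, card_range, nsmul_eq_mul]
  have h2 : ((#(S j) / s : ℕ) : ℝ) ≤ #(S j) / s := Nat.cast_div_le
  have h3 : (t : ℝ) ^ (1 / 2 + δ) ≤ t := by
    calc (t : ℝ) ^ (1 / 2 + δ) ≤ (t : ℝ) ^ (1 : ℝ) :=
          Real.rpow_le_rpow_of_exponent_le ht1' (by linarith)
      _ = t := Real.rpow_one _
  have h4 : (s : ℝ) = (t : ℝ) ^ A * t := by rw [hs]; push_cast; ring
  have h5 : (#(S j) : ℝ) / s * (t : ℝ) ^ (1 / 2 + δ) ≤ #(S j) / (t : ℝ) ^ A := by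
    calc (#(S j) : ℝ) / s * (t : ℝ) ^ (1 / 2 + δ) ≤ (#(S j) : ℝ) / s * t := by gcongr
      _ = _ := by rw [h4]; field_simp
  push_cast
  calc (((#(S j) / s : ℕ) : ℝ) + 1) * (C * (t : ℝ) ^ (1 / 2 + δ))
      ≤ ((#(S j) : ℝ) / s + 1) * (C * (t : ℝ) ^ (1 / 2 + δ)) := by gcongr
    _ = C * ((t : ℝ) ^ (1 / 2 + δ) + (#(S j) : ℝ) / s * (t : ℝ) ^ (1 / 2 + δ)) := by ring
    _ ≤ _ := by gcongr

/-- The main theorem. -/
theorem main (A : ℕ) (δ : ℝ) (hδ : 0 < δ) : ∃ (g : ℕ) (C : ℝ),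
    ∀ (V : Type u) (ι : Type v) [Fintype V] [DecidableEq V] [Fintype ι] [DecidableEq ι]
      (S : ι → Finset V) (t : ℕ), 1 ≤ t → (∀ v, #(univ.filter fun j => v ∈ S j) ≤ t) →
      (∀ (a : V ⊕ ι) (c : (incGraph S).Walk a a), c.IsCycle → g ≤ c.length) →
      ∃ χ : V → ℤ, (∀ v, χ v = 1 ∨ χ v = -1) ∧
        ∀ j, |((∑ v ∈ S j, χ v : ℤ) : ℝ)| ≤
          C * ((t : ℝ) ^ (1 / 2 + δ) + #(S j) / (t : ℝ) ^ A) := by
  obtain ⟨r, C, hC, h⟩ := all_sizes.{u, v} A (min δ (1 / 2)) (lt_min hδ (by norm_num))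
    (min_le_right _ _)
  refine ⟨r + 3, C, ?_⟩
  intro V ι _ _ _ _ S t ht1 ht hg
  obtain ⟨χ, h1, h2⟩ := h V ι S t ht1 ht (noShort_of_girth S (by omega) hg)
  refine ⟨χ, h1, fun j => (h2 j).trans ?_⟩
  have ht1' : (1 : ℝ) ≤ t := by exact_mod_cast ht1
  gcongr
  · exact min_le_left _ _

end Pool.Agent.Helper86.BF
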