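import Pool.Agent.Helper86.BF.Process
import Pool.Agent.Helper86.BF.Defs

/-!
Large girth: disjointness of the dependency sets.
-/

namespace Pool.Agent.Helper86.BF

open Finset SimpleGraph

section graph

variable {V ι : Type*} (S : ι → Finset V)

theorem adj_lr {v : V} {j : ι} (h : v ∈ S j) : (incGraph S).Adj (Sum.inl v) (Sum.inr j) := by
  rw [incGraph, SimpleGraph.fromRel_adj]
  exact ⟨by simp, Or.inl ⟨v, j, rfl, rfl, h⟩⟩

theorem adj_rl {v : V} {j : ι} (h : v ∈ S j) : (incGraph S).Adj (Sum.inr j) (Sum.inl v) :=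
  (adj_lr S h).symm

theorem mem_of_adj {v : V} {j : ι} (h : (incGraph S).Adj (Sum.inl v) (Sum.inr j)) : v ∈ S j := by
  rw [incGraph, SimpleGraph.fromRel_adj] at h
  rcases h.2 with ⟨v', j', h1, h2, h3⟩ | ⟨v', j', h1, h2, h3⟩
  · simp at h1 h2; subst h1 h2; exact h3
  · simp at h1

/-- there is no short walk from `j'` to `j` avoiding a common point -/
def NoShort (r : ℕ) : Prop :=
  ∀ (i : V) (j j' : ι), j ≠ j' → i ∈ S j → i ∈ S j' →
    ∀ w : (incGraph S).Walk (Sum.inr j') (Sum.inr j), w.length ≤ r → Sum.inl i ∈ w.support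

theorem NoShort.mono {r r' : ℕ} (h : NoShort S r) (hr : r' ≤ r) : NoShort S r' :=
  fun i j j' h1 h2 h3 w hw => h i j j' h1 h2 h3 w (hw.trans hr)

theorem noShort_of_girth [DecidableEq V] [DecidableEq ι] {g r : ℕ} (hr : r + 2 < g)
    (hg : ∀ (a : V ⊕ ι) (c : (incGraph S).Walk a a), c.IsCycle → g ≤ c.length) : NoShort S r := by
  intro i j j' hjj hi hi' w hw
  by_contra hcon
  set p := w.bypass with hp
  have hpP : p.IsPath := w.bypass_isPath
  have hpl : p.length ≤ w.length := w.length_bypass_le_length
  have hps : Sum.inl i ∉ p.support := fun h => hcon (w.support_bypass_subset_support h)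
  have h1 : (p.concat (adj_rl S hi)).IsPath := hpP.concat hps _
  have h2 : s(Sum.inl i, Sum.inr j') ∉ (p.concat (adj_rl S hi)).edges := by
    rw [Walk.edges_concat, List.concat_eq_append, List.mem_append, not_or]
    constructor
    · intro h
      exact hps (p.fst_mem_support_of_mem_edges h)
    · simp only [List.mem_singleton, Sym2.eq_iff, not_or]
      constructor
      · rintro ⟨h, _⟩; simp at h
      · rintro ⟨_, h⟩; simp at h; exact hjj h.symm
  have h3 := (Walk.cons_isCycle_iff _ (adj_lr S hi')).2 ⟨h1, h2⟩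
  have h4 := hg _ _ h3
  simp only [Walk.length_cons, Walk.length_concat] at h4
  omega

/-- sub-systems: `NoShort` passes to a refined system -/
theorem noShort_refine {ι' : Type*} (S' : ι' → Finset V) (π : ι' → ι) (hsub : ∀ a, S' a ⊆ S (π a))
    (hdis : ∀ a b, a ≠ b → π a = π b → Disjoint (S' a) (S' b)) {r : ℕ} (h : NoShort S r) :
    NoShort S' r := by
  classical
  let φ : incGraph S' →g incGraph S :=
    { toFun := Sum.map id π
      map_rel' := by
        intro a b hab
        rcases a with v | a <;> rcases b with w | b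
        · rw [incGraph, SimpleGraph.fromRel_adj] at hab
          rcases hab.2 with ⟨v', j', h1, h2, h3⟩ | ⟨v', j', h1, h2, h3⟩ <;> simp at h2
        · exact adj_lr S (hsub _ (mem_of_adj S' hab))
        · exact adj_rl S (hsub _ (mem_of_adj S' hab.symm))
        · rw [incGraph, SimpleGraph.fromRel_adj] at hab
          rcases hab.2 with ⟨v', j', h1, h2, h3⟩ | ⟨v', j', h1, h2, h3⟩ <;> simp at h1 }
  intro i j j' hjj hi hi' w hw
  have hne : π j ≠ π j' := by
    intro heq
    exact (Finset.disjoint_left.1 (hdis j j' hjj heq)) hi hi'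
  have hlen : (w.map φ).length = w.length := Walk.length_map _ _
  have hsup := Walk.support_map φ w
  have h1 : Sum.inl i ∈ (w.map φ).support :=
    h i (π j) (π j') hne (hsub _ hi) (hsub _ hi') (w.map φ) (hlen.le.trans hw)
  rw [hsup, List.mem_map] at h1
  obtain ⟨x, hx, hx'⟩ := h1
  rcases x with v | a
  · have : v = i := by simpa [φ] using hx'
    rwa [this] at hx
  · exact absurd hx' (by simp [φ])

end graph

namespace Par

variable {V : Type*} [Fintype V] [DecidableEq V] {ι : Type*} [Fintype ι] [DecidableEq ι]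
  (P : Par V ι)

theorem exists_walk {k : ℕ} {j : ι} {x : V} (h : x ∈ P.dep k j) :
    ∃ w : (incGraph P.S).Walk (Sum.inr j) (Sum.inl x), w.length ≤ 2 * k ∧
      ∀ v, Sum.inl v ∈ w.support → P.lab v < k := by
  induction k generalizing j with
  | zero => simp [dep] at h
  | succ k ih =>
    rw [dep_succ, mem_union, mem_biUnion] at h
    rcases h with h | ⟨v, hv, h⟩
    · obtain ⟨w, hw1, hw2⟩ := ih h
      exact ⟨w, by omega, fun v hv => by have := hw2 v hv; omega⟩
    · have hvS : v ∈ P.S j := (mem_filter.1 hv).1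
      have hvk : P.lab v = k := (mem_filter.1 hv).2
      rw [mem_insert, mem_biUnion] at h
      rcases h with rfl | ⟨j', hj', h⟩
      · refine ⟨Walk.cons (adj_rl P.S hvS) Walk.nil, by simp; omega, ?_⟩
        intro u hu
        simp only [Walk.support_cons, Walk.support_nil, List.mem_cons] at hu
        rcases hu with hu | hu | hu
        · simp at hu
        · simp at hu; subst hu; omega
        · simp at hu
      · obtain ⟨w, hw1, hw2⟩ := ih h
        refine ⟨Walk.cons (adj_rl P.S hvS) (Walk.cons (adj_lr P.S (mem_filter.1 hj').2) w), ?_, ?_⟩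
        · simp only [Walk.length_cons]; omega
        · intro u hu
          simp only [Walk.support_cons, List.mem_cons] at hu
          rcases hu with hu | hu | hu
          · simp at hu
          · simp at hu; subst hu; omega
          · have := hw2 u hu; omega

theorem exists_walk2 {k : ℕ} {j j' : ι} {x : V} (h : x ∈ P.dep k j) (h' : x ∈ P.dep k j') :
    ∃ w : (incGraph P.S).Walk (Sum.inr j') (Sum.inr j), w.length ≤ 4 * k ∧
      ∀ v, Sum.inl v ∈ w.support → P.lab v < k := by
  obtain ⟨w, hw1, hw2⟩ := P.exists_walk h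
  obtain ⟨w', hw1', hw2'⟩ := P.exists_walk h'
  refine ⟨w'.append w.reverse, ?_, ?_⟩
  · rw [Walk.length_append, Walk.length_reverse]; omega
  · intro v hv
    rw [Walk.mem_support_append_iff, Walk.support_reverse, List.mem_reverse] at hv
    rcases hv with hv | hv
    · exact hw2' v hv
    · exact hw2 v hv

theorem disjoint_dep {k : ℕ} (h : NoShort P.S (4 * k)) {i : V} (hi : k ≤ P.lab i) {j j' : ι}
    (hjj : j ≠ j') (hj : i ∈ P.S j) (hj' : i ∈ P.S j') : Disjoint (P.dep k j) (P.dep k j') := by
  rw [Finset.disjoint_left]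
  intro x hx hx'
  obtain ⟨w, hw1, hw2⟩ := P.exists_walk2 hx hx'
  have := hw2 i (h i j j' hjj hj hj' w hw1)
  omega

theorem disjoint_pairs {k : ℕ} (h : NoShort P.S (4 * k + 2)) {j : ι} {p q : V × ι}
    (hp : p ∈ P.pairs k j) (hq : q ∈ P.pairs k j) (hpq : p ≠ q) :
    Disjoint (P.dep k p.2) (P.dep k q.2) := by
  obtain ⟨i1, j1⟩ := p
  obtain ⟨i2, j2⟩ := q
  simp only [pairs, mem_filter, mem_product, part] at hp hq
  obtain ⟨⟨⟨h1a, h1b⟩, _⟩, h1c, h1d⟩ := hp
  obtain ⟨⟨⟨h2a, h2b⟩, _⟩, h2c, h2d⟩ := hq
  by_cases hi : i1 = i2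
  · subst hi
    have hj : j1 ≠ j2 := by rintro rfl; exact hpq rfl
    exact P.disjoint_dep (h.mono _ (by omega)) (le_of_eq h1b.symm) hj h1c h2c
  · by_cases hj : j1 = j2
    · subst hj
      exfalso
      have hw := h i1 j j1 (Ne.symm h1d) h1a h1c
        (Walk.cons (adj_rl P.S h2c) (Walk.cons (adj_lr P.S h2a) Walk.nil)) (by simp)
      simp only [Walk.support_cons, Walk.support_nil, List.mem_cons] at hw
      rcases hw with hw | hw | hw | hw
      · simp at hw
      · simp at hw; exact hi hw
      · simp at hw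
      · simp at hw
    · rw [Finset.disjoint_left]
      intro x hx hx'
      obtain ⟨w, hw1, hw2⟩ := P.exists_walk2 hx' hx
      -- w : inr j1 -> inr j2
      have hw := h i1 j j1 (Ne.symm h1d) h1a h1c
        ((w.concat (adj_rl P.S h2c)).concat (adj_lr P.S h2a)) (by
          simp only [Walk.length_concat]; omega)
      simp only [Walk.support_concat, List.concat_eq_append, List.mem_append, List.mem_cons] at hw
      rcases hw with (hw | hw) | hw
      · have := hw2 i1 hw; omega
      · simp at hw; exact hi hw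
      · simp at hw

end Par

end Pool.Agent.Helper86.BF
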