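import Pool.Agent.Helper86.BF.Round

/-!
Stage labels with prescribed densities on all the sets.
-/

namespace Pool.Agent.Helper86.BF

open Finset

variable {V : Type*} [Fintype V] [DecidableEq V] {ι : Type*} [Fintype ι] [DecidableEq ι]

theorem exists_labels (S : ι → Finset V) (t : ℕ)
    (ht : ∀ v, #(univ.filter fun j => v ∈ S j) ≤ t) (K : ℕ) (Q : ℕ → ℝ) (hQ0 : Q 0 = 1)
    (hQpos : ∀ k ≤ K, 0 < Q k) (hQ : ∀ k ≤ K, Q (k + 1) ≤ Q k) (hQK : Q (K + 1) = 0) :
    ∃ lab : V → ℕ, (∀ v, lab v ≤ K) ∧ ∀ k ≤ K, ∀ j,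
      |(#((S j).filter fun v => lab v = k) : ℝ) - (Q k - Q (k + 1)) * #(S j)| ≤ (2 * k + 1) * t := by
  classical
  have hex : ∀ (W : Finset V) (k : ℕ), ∃ W' : Finset V, k < K → (W' ⊆ W ∧
      ∀ j, |(#(S j ∩ W') : ℝ) - (Q (k + 1) / Q k) * #(S j ∩ W)| ≤ t) := by
    intro W k
    by_cases hk : k < K
    · have h1 := hQpos k (by omega)
      have h2 := hQpos (k + 1) (by omega)
      have h3 := hQ k (by omega)
      obtain ⟨W', hW', h⟩ := exists_subset S t ht W (Q (k + 1) / Q k) (by positivity)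
        (by rw [div_le_one h1]; exact h3)
      exact ⟨W', fun _ => ⟨hW', h⟩⟩
    · exact ⟨∅, fun h => absurd h hk⟩
  choose f hf using hex
  obtain ⟨W, hW0, hWs⟩ : ∃ W : ℕ → Finset V, W 0 = univ ∧ ∀ k, W (k + 1) = f (W k) k :=
    ⟨fun k => Nat.rec univ (fun k W => f W k) k, rfl, fun _ => rfl⟩
  have hsub : ∀ k < K, W (k + 1) ⊆ W k := fun k hk => by rw [hWs]; exact (hf _ _ hk).1
  have herr : ∀ k ≤ K, ∀ j, |(#(S j ∩ W k) : ℝ) - Q k * #(S j)| ≤ k * t := by
    intro k
    induction k with
    | zero => intro _ j; simp [hW0, hQ0]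
    | succ k ih =>
      intro hk j
      have h1 := ih (by omega) j
      have h2 := (hf (W k) k (by omega)).2 j
      rw [← hWs] at h2
      have hp := hQpos k (by omega)
      have hp' := hQpos (k + 1) (by omega)
      have hr := hQ k (by omega)
      have h4 : Q (k + 1) / Q k ≤ 1 := by rw [div_le_one hp]; exact hr
      have h5 : 0 ≤ Q (k + 1) / Q k := by positivity
      have h3 : (#(S j ∩ W (k + 1)) : ℝ) - Q (k + 1) * #(S j)
          = ((#(S j ∩ W (k + 1)) : ℝ) - (Q (k + 1) / Q k) * #(S j ∩ W k))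
            + (Q (k + 1) / Q k) * ((#(S j ∩ W k) : ℝ) - Q k * #(S j)) := by
        field_simp; ring
      rw [h3]
      calc _ ≤ |(#(S j ∩ W (k + 1)) : ℝ) - (Q (k + 1) / Q k) * #(S j ∩ W k)|
            + |(Q (k + 1) / Q k) * ((#(S j ∩ W k) : ℝ) - Q k * #(S j))| := abs_add_le _ _
        _ ≤ t + 1 * (k * t) := by
            rw [abs_mul, abs_of_nonneg h5]
            gcongr
        _ = _ := by push_cast; ring
  have hmono : ∀ k l, k ≤ l → l ≤ K → W l ⊆ W k := by
    intro k l hkl
    induction hkl with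
    | refl => intro _; exact Subset.refl _
    | step _ ih => intro h; exact (hsub _ (by omega)).trans (ih (by omega))
  refine ⟨fun v : V => Nat.findGreatest (fun k : ℕ => v ∈ W k) K,
    fun v : V => Nat.findGreatest_le (P := fun k : ℕ => v ∈ W k) K, ?_⟩
  intro k hk j
  have hlab : ∀ (v : V) (k : ℕ), k ≤ K → (v ∈ W k ↔ k ≤ Nat.findGreatest (fun k => v ∈ W k) K) := by
    intro v k hk
    constructor
    · intro h; exact Nat.le_findGreatest hk h
    · intro h
      have h1 : v ∈ W (Nat.findGreatest (fun k => v ∈ W k) K) := by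
        apply Nat.findGreatest_spec (P := fun k => v ∈ W k) (Nat.zero_le K)
        rw [hW0]; exact mem_univ _
      exact hmono _ _ h (Nat.findGreatest_le K) h1
  rcases Nat.lt_or_ge k K with hlt | hge
  · have h1 : ((S j).filter fun v => Nat.findGreatest (fun k => v ∈ W k) K = k)
        = (S j ∩ W k) \ (S j ∩ W (k + 1)) := by
      ext v
      have h2 := hlab v k (by omega)
      have h3 := hlab v (k + 1) (by omega)
      simp only [mem_filter, mem_sdiff, mem_inter, h2, h3]
      constructor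
      · rintro ⟨h, h'⟩; exact ⟨⟨h, by omega⟩, fun h => by omega⟩
      · rintro ⟨⟨h, h'⟩, h''⟩
        refine ⟨h, ?_⟩
        by_contra hc
        exact h'' ⟨h, by omega⟩
    have h2 : S j ∩ W (k + 1) ⊆ S j ∩ W k := inter_subset_inter_left (hsub k hlt)
    rw [h1, card_sdiff_of_subset h2, Nat.cast_sub (card_le_card h2)]
    have h3 := abs_le.1 (herr k (by omega) j)
    have h4 := abs_le.1 (herr (k + 1) (by omega) j)
    push_cast at h4
    rw [abs_le]
    constructor <;> nlinarith
  · have hkK : k = K := le_antisymm hk hge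
    subst hkK
    have h1 : ((S j).filter fun v => Nat.findGreatest (fun k' => v ∈ W k') k = k)
        = S j ∩ W k := by
      ext v
      have h2 := hlab v k le_rfl
      have h3 : Nat.findGreatest (fun k' => v ∈ W k') k ≤ k := Nat.findGreatest_le k
      simp only [mem_filter, mem_inter, h2]
      constructor
      · rintro ⟨h, h'⟩; exact ⟨h, by omega⟩
      · rintro ⟨h, h'⟩; exact ⟨h, by omega⟩
    rw [h1, hQK, sub_zero]
    refine (herr k le_rfl j).trans ?_
    have : (0 : ℝ) ≤ k * t := by positivity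
    have : (0 : ℝ) ≤ t := by positivity
    nlinarith

end Pool.Agent.Helper86.BF
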