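import Pool.Agent.Helper86.BF.Conc

/-!
The staged biased random colouring.
-/

namespace Pool.Agent.Helper86.BF

open Finset

/-- data of the process: the set system, the stage labels, the protected sets of each stage, the caps
on the errors, and the discretisation parameter `F` -/
structure Par (V ι : Type*) where
  S : ι → Finset V
  lab : V → ℕ
  prot : ℕ → Finset ι
  cap : ℕ → ι → ℕ
  F : ℕ

namespace Par

variable {V : Type*} [Fintype V] [DecidableEq V] {ι : Type*} [Fintype ι] [DecidableEq ι]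
  (P : Par V ι)

/-- part of `S j` with label `k` -/
def part (k : ℕ) (j : ι) : Finset V := (P.S j).filter fun v => P.lab v = k

def cnt (k : ℕ) (j : ι) : ℕ := #(P.part k j)

def errOf (c : V → ℤ) (j : ι) : ℤ := ∑ v ∈ P.S j, c v

def hatOf (k : ℕ) (c : V → ℤ) (j : ι) : ℤ := max (-(P.cap k j : ℤ)) (min (P.cap k j : ℤ) (P.errOf c j))

/-- protected sets through `v` -/
def pr (k : ℕ) (v : V) : Finset ι := (P.prot k).filter fun j => v ∈ P.S j

def YOf (k : ℕ) (c : V → ℤ) (v : V) : ℤ :=
  - ∑ j ∈ P.pr k v, P.hatOf k c j * ((P.F / P.cnt k j : ℕ) : ℤ)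

def thrOf (k : ℕ) (c : V → ℤ) (v : V) : ℕ :=
  ((P.F : ℤ) + max (-(P.F : ℤ)) (min (P.F : ℤ) (P.YOf k c v))).toNat

/-- the colouring after the stages `< k` (uncoloured vertices have value `0`) -/
def col : ℕ → (V → Fin (2 * P.F)) → V → ℤ
  | 0, _, _ => 0
  | k + 1, ω, v =>
    if P.lab v = k then (if (ω v : ℕ) < P.thrOf k (col k ω) v then 1 else -1) else col k ω v

def err (k : ℕ) (ω : V → Fin (2 * P.F)) (j : ι) : ℤ := P.errOf (P.col k ω) j

def thr (k : ℕ) (v : V) (ω : V → Fin (2 * P.F)) : ℕ := P.thrOf k (P.col k ω) v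

noncomputable def g (k : ℕ) (j : ι) (ω : V → Fin (2 * P.F)) : ℝ :=
  (P.hatOf k (P.col k ω) j : ℝ) / P.cnt k j

theorem thrOf_le (k : ℕ) (c : V → ℤ) (v : V) : P.thrOf k c v ≤ 2 * P.F := by
  unfold thrOf; omega

theorem thr_le (k : ℕ) (v : V) (ω) : P.thr k v ω ≤ 2 * P.F := P.thrOf_le _ _ _

theorem col_succ_of_eq {k : ℕ} {v : V} (h : P.lab v = k) (ω) :
    P.col (k + 1) ω v = if (ω v : ℕ) < P.thr k v ω then 1 else -1 := by
  show (if P.lab v = k then _ else _) = _
  rw [if_pos h]
  rfl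

theorem col_succ_of_ne {k : ℕ} {v : V} (h : P.lab v ≠ k) (ω) :
    P.col (k + 1) ω v = P.col k ω v := by
  simp [col, h]

theorem col_zero_of_le {k : ℕ} {v : V} (h : k ≤ P.lab v) (ω) : P.col k ω v = 0 := by
  induction k with
  | zero => rfl
  | succ k ih => rw [P.col_succ_of_ne (by omega), ih (by omega)]

theorem col_pm {k : ℕ} {v : V} (h : P.lab v < k) (ω) : P.col k ω v = 1 ∨ P.col k ω v = -1 := by
  induction k with
  | zero => omega
  | succ k ih =>
    by_cases hk : P.lab v = k
    · rw [P.col_succ_of_eq hk]; split_ifs <;> simp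
    · rw [P.col_succ_of_ne hk]; exact ih (by omega)

/-! ### oddness -/

/-- reversal of all coordinates -/
def rho : (V → Fin (2 * P.F)) ≃ (V → Fin (2 * P.F)) := Equiv.arrowCongr (Equiv.refl V) Fin.revPerm

theorem rho_apply (ω : V → Fin (2 * P.F)) (v : V) : (P.rho ω v : ℕ) = 2 * P.F - 1 - ω v := by
  have : P.rho ω v = Fin.rev (ω v) := rfl
  rw [this, Fin.val_rev]
  have := (ω v).2
  omega

theorem errOf_neg (c : V → ℤ) (j : ι) : P.errOf (fun v => - c v) j = - P.errOf c j := by
  simp [errOf]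

theorem hatOf_neg (k : ℕ) (c : V → ℤ) (j : ι) :
    P.hatOf k (fun v => - c v) j = - P.hatOf k c j := by
  unfold hatOf; rw [P.errOf_neg]; omega

theorem YOf_neg (k : ℕ) (c : V → ℤ) (v : V) : P.YOf k (fun v => - c v) v = - P.YOf k c v := by
  unfold YOf
  simp only [P.hatOf_neg, neg_mul, sum_neg_distrib]

theorem col_rho (k : ℕ) (ω : V → Fin (2 * P.F)) : P.col k (P.rho ω) = fun v => - P.col k ω v := by
  induction k with
  | zero => ext v; simp [col]
  | succ k ih =>
    ext v
    by_cases hk : P.lab v = k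
    · rw [P.col_succ_of_eq hk, P.col_succ_of_eq hk]
      have h1 : P.thr k v (P.rho ω) = 2 * P.F - P.thr k v ω := by
        unfold thr thrOf; rw [ih, P.YOf_neg]; omega
      have h2 := P.rho_apply ω v
      have h3 := (ω v).2
      have h4 := P.thr_le k v ω
      rw [h1, h2]
      split_ifs <;> omega
    · rw [P.col_succ_of_ne hk, P.col_succ_of_ne hk, ih]

theorem g_rho (k : ℕ) (j : ι) (ω) : P.g k j (P.rho ω) = - P.g k j ω := by
  unfold g; rw [P.col_rho, P.hatOf_neg]; push_cast; ring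

/-! ### dependence -/

/-- coordinates on which the error of the set `j` before stage `k` depends -/
def dep : ℕ → ι → Finset V
  | 0, _ => ∅
  | k + 1, j => dep k j ∪ (P.part k j).biUnion fun v =>
      insert v ((univ.filter fun j' => v ∈ P.S j').biUnion (dep k))

theorem dep_succ (k : ℕ) (j : ι) : P.dep (k + 1) j = P.dep k j ∪ (P.part k j).biUnion fun v =>
      insert v ((univ.filter fun j' => v ∈ P.S j').biUnion (P.dep k)) := rfl

theorem dep_mono_succ (k : ℕ) (j : ι) : P.dep k j ⊆ P.dep (k + 1) j := subset_union_left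

theorem dep_mono {k l : ℕ} (h : k ≤ l) (j : ι) : P.dep k j ⊆ P.dep l j := by
  induction h with
  | refl => exact Subset.refl _
  | step _ ih => exact ih.trans (P.dep_mono_succ _ _)

theorem dep_lab {k : ℕ} {j : ι} {v : V} (h : v ∈ P.dep k j) : P.lab v < k := by
  induction k generalizing j with
  | zero => simp [dep] at h
  | succ k ih =>
    rw [dep_succ, mem_union, mem_biUnion] at h
    rcases h with h | ⟨w, hw, h⟩
    · have := ih h; omega
    · rw [mem_insert, mem_biUnion] at h
      rcases h with rfl | ⟨j', _, h⟩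
      · have := (mem_filter.1 hw).2; omega
      · have := ih h; omega

theorem col_dep (k : ℕ) (j : ι) {v : V} (hv : v ∈ P.S j) :
    DepOn (P.dep k j) (fun ω => P.col k ω v) := by
  induction k generalizing j v with
  | zero => intro ω ω' _; rfl
  | succ k ih =>
    intro ω ω' h
    by_cases hk : P.lab v = k
    · have hvp : v ∈ P.part k j := mem_filter.2 ⟨hv, hk⟩
      show P.col (k + 1) ω v = P.col (k + 1) ω' v
      rw [P.col_succ_of_eq hk, P.col_succ_of_eq hk]
      have h1 : ω v = ω' v := by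
        apply h
        rw [dep_succ, mem_union, mem_biUnion]
        exact Or.inr ⟨v, hvp, mem_insert_self _ _⟩
      have h2 : P.thr k v ω = P.thr k v ω' := by
        unfold thr thrOf
        have h3 : P.YOf k (P.col k ω) v = P.YOf k (P.col k ω') v := by
          unfold YOf
          congr 1
          refine sum_congr rfl fun j' hj' => ?_
          have hvj' : v ∈ P.S j' := (mem_filter.1 hj').2
          have h4 : P.errOf (P.col k ω) j' = P.errOf (P.col k ω') j' := by
            unfold errOf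
            refine sum_congr rfl fun w hw => ?_
            apply ih j' hw
            intro u hu
            apply h
            rw [dep_succ, mem_union, mem_biUnion]
            refine Or.inr ⟨v, hvp, mem_insert_of_mem ?_⟩
            rw [mem_biUnion]
            exact ⟨j', mem_filter.2 ⟨mem_univ _, hvj'⟩, hu⟩
          unfold hatOf; rw [h4]
        rw [h3]
      rw [h1, h2]
    · show P.col (k + 1) ω v = P.col (k + 1) ω' v
      rw [P.col_succ_of_ne hk, P.col_succ_of_ne hk]
      exact ih j hv ω ω' fun u hu => h u (P.dep_mono_succ k j hu)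

theorem err_dep (k : ℕ) (j : ι) : DepOn (P.dep k j) (fun ω => P.err k ω j) := by
  intro ω ω' h
  unfold err errOf
  exact sum_congr rfl fun v hv => P.col_dep k j hv ω ω' h

theorem g_dep (k : ℕ) (j : ι) : DepOn (P.dep k j) (P.g k j) := by
  intro ω ω' h
  have h4 : P.errOf (P.col k ω) j = P.errOf (P.col k ω') j := P.err_dep k j ω ω' h
  unfold g hatOf
  rw [h4]

/-- coordinates on which the threshold of `v` depends -/
def depV (k : ℕ) (v : V) : Finset V := (univ.filter fun j' => v ∈ P.S j').biUnion (P.dep k)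

theorem thr_dep (k : ℕ) (v : V) : DepOn (P.depV k v) (P.thr k v) := by
  intro ω ω' h
  unfold thr thrOf
  have h3 : P.YOf k (P.col k ω) v = P.YOf k (P.col k ω') v := by
    unfold YOf
    congr 1
    refine sum_congr rfl fun j' hj' => ?_
    have hvj' : v ∈ P.S j' := (mem_filter.1 hj').2
    have h4 : P.errOf (P.col k ω) j' = P.errOf (P.col k ω') j' :=
      P.err_dep k j' ω ω' fun u hu => h u (by
        unfold depV; rw [mem_biUnion]; exact ⟨j', mem_filter.2 ⟨mem_univ _, hvj'⟩, hu⟩)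
    unfold hatOf; rw [h4]
  rw [h3]

theorem depV_lab {k : ℕ} {v w : V} (h : w ∈ P.depV k v) : P.lab w < k := by
  unfold depV at h
  rw [mem_biUnion] at h
  obtain ⟨j, _, h⟩ := h
  exact P.dep_lab h

theorem depV_subset {k : ℕ} {v : V} {j : ι} (hv : v ∈ P.part k j) :
    P.depV k v ⊆ P.dep (k + 1) j := by
  intro w hw
  rw [dep_succ, mem_union, mem_biUnion]
  exact Or.inr ⟨v, hv, mem_insert_of_mem hw⟩

theorem part_subset_dep (k : ℕ) (j : ι) : P.part k j ⊆ P.dep (k + 1) j := by
  intro w hw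
  rw [dep_succ, mem_union, mem_biUnion]
  exact Or.inr ⟨w, hw, mem_insert_self _ _⟩

/-! ### the recursion for the errors -/

/-- the mean of the sign of `v` -/
noncomputable def mean (k : ℕ) (v : V) (ω : V → Fin (2 * P.F)) : ℝ := (P.thr k v ω : ℝ) / P.F - 1

/-- noise part -/
noncomputable def Nsum (k : ℕ) (j : ι) (ω : V → Fin (2 * P.F)) : ℝ :=
  ∑ v ∈ P.part k j, cen (P.thr k v ω) (ω v)

/-- the pairs of the cross term -/
def pairs (k : ℕ) (j : ι) : Finset (V × ι) :=
  (P.part k j ×ˢ P.prot k).filter fun p => p.1 ∈ P.S p.2 ∧ p.2 ≠ j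

noncomputable def Dsum (k : ℕ) (j : ι) (ω : V → Fin (2 * P.F)) : ℝ :=
  ∑ p ∈ P.pairs k j, P.g k p.2 ω

noncomputable def Csum (k : ℕ) (v : V) (ω : V → Fin (2 * P.F)) : ℝ :=
  ∑ j ∈ P.pr k v, P.g k j ω

theorem col_eq_sgn {k : ℕ} {v : V} (h : P.lab v = k) (ω) :
    (P.col (k + 1) ω v : ℝ) = sgn (P.thr k v ω) (ω v) := by
  rw [P.col_succ_of_eq h]
  unfold sgn
  split_ifs <;> simp

theorem err_succ (k : ℕ) (j : ι) (ω) :
    (P.err (k + 1) ω j : ℝ) = P.err k ω j + P.Nsum k j ω + ∑ v ∈ P.part k j, P.mean k v ω := by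
  unfold Nsum
  rw [add_assoc, ← sum_add_distrib]
  have h1 : ∀ v ∈ P.part k j, cen (P.thr k v ω) (ω v) + P.mean k v ω
      = (P.col (k + 1) ω v : ℝ) := by
    intro v hv
    rw [P.col_eq_sgn (mem_filter.1 hv).2]
    unfold cen mean; ring
  rw [sum_congr rfl h1]
  unfold err errOf
  push_cast
  rw [← sum_filter_add_sum_filter_not (P.S j) (fun v => P.lab v = k)
    (fun v => (P.col (k + 1) ω v : ℝ))]
  rw [← sum_filter_add_sum_filter_not (P.S j) (fun v => P.lab v = k) (fun v => (P.col k ω v : ℝ))]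
  have h2 : ∑ v ∈ (P.S j).filter (fun v => P.lab v = k), (P.col k ω v : ℝ) = 0 := by
    apply sum_eq_zero
    intro v hv
    rw [P.col_zero_of_le (le_of_eq (mem_filter.1 hv).2.symm)]; simp
  have h3 : ∑ v ∈ (P.S j).filter (fun v => ¬ P.lab v = k), (P.col (k + 1) ω v : ℝ)
      = ∑ v ∈ (P.S j).filter (fun v => ¬ P.lab v = k), (P.col k ω v : ℝ) := by
    refine sum_congr rfl fun v hv => ?_
    rw [P.col_succ_of_ne (mem_filter.1 hv).2]
  rw [h2, h3]
  unfold part
  ring

theorem mean_eq {k : ℕ} {v : V} (hF : 0 < P.F)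
    (hdvd : ∀ j ∈ P.prot k, 0 < P.cnt k j ∧ P.cnt k j ∣ P.F) (ω)
    (hC : |P.Csum k v ω| ≤ 1) : P.mean k v ω = - P.Csum k v ω := by
  have hF' : (0 : ℝ) < P.F := by exact_mod_cast hF
  have h1 : ((P.YOf k (P.col k ω) v : ℤ) : ℝ) = - (P.F * P.Csum k v ω) := by
    unfold YOf Csum g
    simp only [Int.cast_neg, Int.cast_sum, Int.cast_mul, Int.cast_natCast]
    rw [mul_sum]
    congr 1
    refine sum_congr rfl fun j hj => ?_
    obtain ⟨hpos, hd⟩ := hdvd j (mem_filter.1 hj).1
    rw [Nat.cast_div hd (by exact_mod_cast hpos.ne')]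
    ring
  have h2 : -(P.F : ℝ) ≤ ((P.YOf k (P.col k ω) v : ℤ) : ℝ) ∧
      ((P.YOf k (P.col k ω) v : ℤ) : ℝ) ≤ P.F := by
    rw [h1]
    have := abs_le.1 hC
    constructor <;> nlinarith
  have h3 : -(P.F : ℤ) ≤ P.YOf k (P.col k ω) v ∧ P.YOf k (P.col k ω) v ≤ P.F := by
    constructor
    · exact_mod_cast h2.1
    · exact_mod_cast h2.2
  have h4 : ((P.thr k v ω : ℕ) : ℤ) = P.F + P.YOf k (P.col k ω) v := by
    unfold thr thrOf
    omega
  have h5 : ((P.thr k v ω : ℕ) : ℝ) = P.F + ((P.YOf k (P.col k ω) v : ℤ) : ℝ) := by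
    exact_mod_cast h4
  unfold mean
  rw [h5, h1]
  field_simp
  ring

theorem sum_mean {k : ℕ} {j : ι} (hF : 0 < P.F)
    (hdvd : ∀ j ∈ P.prot k, 0 < P.cnt k j ∧ P.cnt k j ∣ P.F) (ω)
    (hC : ∀ v ∈ P.part k j, |P.Csum k v ω| ≤ 1) :
    ∑ v ∈ P.part k j, P.mean k v ω
      = - (if j ∈ P.prot k then (P.hatOf k (P.col k ω) j : ℝ) else 0) - P.Dsum k j ω := by
  rw [sum_congr rfl fun v hv => P.mean_eq hF hdvd ω (hC v hv)]
  rw [sum_neg_distrib]
  have h1 : ∑ v ∈ P.part k j, P.Csum k v ω
      = (if j ∈ P.prot k then (P.hatOf k (P.col k ω) j : ℝ) else 0) + P.Dsum k j ω := by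
    have h2 : P.Dsum k j ω = ∑ v ∈ P.part k j, ∑ j' ∈ (P.pr k v).erase j, P.g k j' ω := by
      unfold Dsum pairs
      rw [sum_filter, sum_product]
      refine sum_congr rfl fun v _ => ?_
      rw [← sum_filter]
      apply sum_congr _ fun _ _ => rfl
      ext j'
      unfold pr
      simp only [mem_filter, mem_erase, ne_eq]
      tauto
    rw [h2]
    have h3 : ∀ v ∈ P.part k j, P.Csum k v ω
        = (if j ∈ P.prot k then P.g k j ω else 0) + ∑ j' ∈ (P.pr k v).erase j, P.g k j' ω := by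
      intro v hv
      have hvS : v ∈ P.S j := (mem_filter.1 hv).1
      unfold Csum
      by_cases hj : j ∈ P.prot k
      · rw [if_pos hj]
        exact (add_sum_erase (P.pr k v) (fun j => P.g k j ω) (mem_filter.2 ⟨hj, hvS⟩)).symm
      · rw [if_neg hj, zero_add, erase_eq_of_notMem]
        intro h; exact hj (mem_filter.1 h).1
    rw [sum_congr rfl h3, sum_add_distrib]
    congr 1
    by_cases hj : j ∈ P.prot k
    · simp only [if_pos hj, sum_const, nsmul_eq_mul]
      have := (hdvd j hj).1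
      unfold g
      have h4 : (P.cnt k j : ℝ) ≠ 0 := by exact_mod_cast this.ne'
      show (P.cnt k j : ℝ) * _ = _
      field_simp
    · simp [hj]
  rw [h1]; ring

end Par

end Pool.Agent.Helper86.BF
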