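import Mathlib

/-!
Beck–Fiala rounding: a point of `[0,1]^V` can be rounded to a `0/1` vector changing every sum over a
set by at most the maximum degree.
-/

namespace Pool.Agent.Helper86.BF

open Finset

variable {V : Type*} [Fintype V] [DecidableEq V] {ι : Type*} [Fintype ι] [DecidableEq ι]

/-- the floating coordinates -/
noncomputable def floating (x : V → ℝ) : Finset V := by
  classical exact univ.filter fun v => 0 < x v ∧ x v < 1

omit [DecidableEq V] in
theorem mem_floating {x : V → ℝ} {v : V} : v ∈ floating x ↔ 0 < x v ∧ x v < 1 := by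
  classical simp [floating]

/-- one step -/
theorem round_step (S : ι → Finset V) (t : ℕ) (ht : ∀ v, #(univ.filter fun j => v ∈ S j) ≤ t)
    (x : V → ℝ) (hx : ∀ v, 0 ≤ x v ∧ x v ≤ 1) (hF : (floating x).Nonempty) :
    ∃ x' : V → ℝ, (∀ v, 0 ≤ x' v ∧ x' v ≤ 1) ∧ (∀ v, v ∉ floating x → x' v = x v) ∧
      floating x' ⊂ floating x ∧
      ∀ j, t < #(S j ∩ floating x) → ∑ v ∈ S j, x' v = ∑ v ∈ S j, x v := by
  classical
  set F := floating x with hFdef
  set Act := univ.filter fun j => t < #(S j ∩ F) with hAct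
  have hcard : #Act < #F := by
    have h1 : #Act * (t + 1) ≤ ∑ j ∈ Act, #(S j ∩ F) := by
      rw [← smul_eq_mul]
      apply Finset.card_nsmul_le_sum
      intro j hj
      have := (mem_filter.1 hj).2
      omega
    have h2 : ∑ j ∈ Act, #(S j ∩ F) ≤ ∑ j, #(S j ∩ F) :=
      sum_le_sum_of_subset (subset_univ _)
    have h3 : ∑ j, #(S j ∩ F) = ∑ v ∈ F, #(univ.filter fun j => v ∈ S j) := by
      have : ∀ j, #(S j ∩ F) = ∑ v ∈ F, if v ∈ S j then 1 else 0 := by
        intro j
        rw [Finset.sum_ite_mem, sum_const, smul_eq_mul, mul_one, inter_comm]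
      simp_rw [this]
      rw [sum_comm]
      refine sum_congr rfl fun v _ => ?_
      rw [card_filter]
    have h4 : ∑ v ∈ F, #(univ.filter fun j => v ∈ S j) ≤ #F * t := by
      rw [← smul_eq_mul]; exact Finset.sum_le_card_nsmul _ _ _ fun v _ => ht v
    have h5 : #Act * (t + 1) ≤ #F * t := by omega
    by_contra hcon
    push Not at hcon
    have h6 : #F * (t + 1) ≤ #Act * (t + 1) := Nat.mul_le_mul_right _ hcon
    have h7 : 0 < #F := hF.card_pos
    nlinarith
  -- linear map
  let A : (F → ℝ) →ₗ[ℝ] (Act → ℝ) :=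
    { toFun := fun d j => ∑ v : F, if (v : V) ∈ S j then d v else 0
      map_add' := by
        intro a b; ext j; simp only [Pi.add_apply]
        rw [← sum_add_distrib]
        refine sum_congr rfl fun v _ => ?_
        split_ifs <;> simp
      map_smul' := by
        intro c a; ext j; simp only [Pi.smul_apply, smul_eq_mul, RingHom.id_apply]
        rw [mul_sum]
        refine sum_congr rfl fun v _ => ?_
        split_ifs <;> simp }
  have hker : LinearMap.ker A ≠ ⊥ := by
    apply LinearMap.ker_ne_bot_of_finrank_lt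
    simp only [Module.finrank_fintype_fun_eq_card, Fintype.card_coe]
    exact hcard
  obtain ⟨d0, hd0, hd0ne⟩ := Submodule.exists_mem_ne_zero_of_ne_bot hker
  -- extend by zero
  let d : V → ℝ := fun v => if h : v ∈ F then d0 ⟨v, h⟩ else 0
  have hdF : ∀ v, v ∉ F → d v = 0 := fun v hv => by simp [d, hv]
  have hdsum : ∀ j, t < #(S j ∩ F) → ∑ v ∈ S j, d v = 0 := by
    intro j hj
    have hjA : j ∈ Act := mem_filter.2 ⟨mem_univ _, hj⟩
    have h1 : A d0 ⟨j, hjA⟩ = 0 := by
      have := LinearMap.mem_ker.1 hd0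
      rw [this]; rfl
    have h2 : A d0 ⟨j, hjA⟩ = ∑ v : F, if (v : V) ∈ S j then d0 v else 0 := rfl
    rw [h2] at h1
    have h3 : ∑ v ∈ S j, d v = ∑ v ∈ F, if v ∈ S j then d v else 0 := by
      rw [Finset.sum_ite_mem]
      rw [← sum_subset (inter_subset_right : F ∩ S j ⊆ S j)]
      intro v hv hv'
      apply hdF
      intro h; exact hv' (mem_inter.2 ⟨h, hv⟩)
    rw [h3, ← Finset.sum_coe_sort F]
    refine Eq.trans ?_ h1
    refine sum_congr rfl fun v _ => ?_
    simp [d]
  have hdne : ∃ v ∈ F, d v ≠ 0 := by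
    by_contra hcon
    push Not at hcon
    apply hd0ne
    ext v
    have := hcon v v.2
    simpa [d] using this
  -- step length
  let r : V → ℝ := fun v => if 0 < d v then (1 - x v) / d v else x v / (- d v)
  set P := F.filter fun v => d v ≠ 0 with hP
  have hPne : P.Nonempty := by
    obtain ⟨v, hv, hv'⟩ := hdne
    exact ⟨v, mem_filter.2 ⟨hv, hv'⟩⟩
  obtain ⟨v0, hv0, hmin⟩ := exists_min_image P r hPne
  have hrpos : ∀ v ∈ P, 0 < r v := by
    intro v hv
    obtain ⟨hvF, hv0⟩ := mem_filter.1 hv
    have := mem_floating.1 hvF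
    simp only [r]
    split_ifs with h
    · exact div_pos (by linarith) h
    · have : d v < 0 := lt_of_le_of_ne (not_lt.1 h) hv0
      exact div_pos (by linarith) (by linarith)
  set lam := r v0 with hlam
  have hlampos : 0 < lam := hrpos v0 hv0
  have hbox : ∀ v, v ∈ F → 0 ≤ x v + lam * d v ∧ x v + lam * d v ≤ 1 := by
    intro v hv
    have hxv := mem_floating.1 hv
    rcases lt_trichotomy (d v) 0 with h | h | h
    · have hvP : v ∈ P := mem_filter.2 ⟨hv, h.ne⟩
      have h1 : lam ≤ x v / (- d v) := by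
        have := hmin v hvP
        simpa [r, not_lt.2 h.le] using this
      rw [le_div_iff₀ (by linarith)] at h1
      constructor <;> nlinarith
    · rw [h]; constructor <;> nlinarith
    · have hvP : v ∈ P := mem_filter.2 ⟨hv, h.ne'⟩
      have h1 : lam ≤ (1 - x v) / d v := by
        have := hmin v hvP
        simpa [r, h] using this
      rw [le_div_iff₀ h] at h1
      constructor <;> nlinarith
  have hv0F := (mem_filter.1 hv0).1
  have hv0d := (mem_filter.1 hv0).2
  have hhit : x v0 + lam * d v0 = 0 ∨ x v0 + lam * d v0 = 1 := by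
    rcases lt_or_gt_of_ne hv0d with h | h
    · left
      have : lam = x v0 / (- d v0) := by simp [hlam, r, not_lt.2 h.le]
      rw [this]; field_simp; ring
    · right
      have : lam = (1 - x v0) / d v0 := by simp [hlam, r, h]
      rw [this]; field_simp; ring
  refine ⟨fun v => x v + lam * d v, ?_, ?_, ?_, ?_⟩
  · intro v
    by_cases hv : v ∈ F
    · exact hbox v hv
    · show 0 ≤ x v + lam * d v ∧ x v + lam * d v ≤ 1
      rw [hdF v hv]; simpa using hx v
  · intro v hv; simp [hdF v hv]
  · refine ⟨?_, ?_⟩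
    · intro v hv
      by_contra hcon
      rw [mem_floating] at hv
      have := mem_floating.not.1 hcon
      rw [hdF v hcon] at hv
      simp at hv
      exact this hv
    · intro hsub
      have h1 := mem_floating.1 (hsub hv0F)
      rcases hhit with h | h <;> rw [h] at h1 <;> simp at h1
  · intro j hj
    simp only [sum_add_distrib, ← mul_sum, hdsum j hj]
    ring

/-- **Beck–Fiala rounding.** -/
theorem round_aux (S : ι → Finset V) (t : ℕ) (ht : ∀ v, #(univ.filter fun j => v ∈ S j) ≤ t) :
    ∀ n : ℕ, ∀ x : V → ℝ, (∀ v, 0 ≤ x v ∧ x v ≤ 1) → #(floating x) = n →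
    ∃ z : V → ℝ, (∀ v, z v = 0 ∨ z v = 1) ∧ (∀ v, v ∉ floating x → z v = x v) ∧
      ∀ j, |∑ v ∈ S j, (z v - x v)| ≤ t := by
  intro n
  induction n using Nat.strong_induction_on with
  | _ n ih =>
  intro x hx hn
  rcases (floating x).eq_empty_or_nonempty with h0 | h0
  · refine ⟨x, ?_, fun _ _ => rfl, ?_⟩
    · intro v
      have h1 : v ∉ floating x := by rw [h0]; simp
      have h2 := mem_floating.not.1 h1
      have h3 := hx v
      by_contra hcon
      push Not at hcon
      apply h2
      exact ⟨lt_of_le_of_ne h3.1 (Ne.symm hcon.1), lt_of_le_of_ne h3.2 hcon.2⟩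
    · intro j; simp
  · obtain ⟨x', hx'1, hx'2, hx'3, hx'4⟩ := round_step S t ht x hx h0
    obtain ⟨z, hz1, hz2, hz3⟩ := ih _ (by rw [← hn]; exact card_lt_card hx'3) x' hx'1 rfl
    have hzx : ∀ v, v ∉ floating x → z v = x v := by
      intro v hv
      rw [hz2 v (fun h => hv (hx'3.1 h)), hx'2 v hv]
    refine ⟨z, hz1, hzx, ?_⟩
    intro j
    by_cases hj : t < #(S j ∩ floating x)
    · have := hz3 j
      rw [sum_sub_distrib] at this ⊢
      rwa [hx'4 j hj] at this
    · push Not at hj
      have h1 : ∑ v ∈ S j, (z v - x v) = ∑ v ∈ S j ∩ floating x, (z v - x v) := by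
        symm
        apply sum_subset inter_subset_left
        intro v hv hv'
        have : v ∉ floating x := fun h => hv' (mem_inter.2 ⟨hv, h⟩)
        rw [hzx v this, sub_self]
      rw [h1]
      calc |∑ v ∈ S j ∩ floating x, (z v - x v)| ≤ ∑ v ∈ S j ∩ floating x, |z v - x v| :=
            abs_sum_le_sum_abs _ _
        _ ≤ ∑ _v ∈ S j ∩ floating x, (1 : ℝ) := by
            apply sum_le_sum
            intro v _
            have h2 := hx v
            rcases hz1 v with h | h <;> rw [h, abs_le] <;> constructor <;> linarith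
        _ = #(S j ∩ floating x) := by simp
        _ ≤ t := by exact_mod_cast hj

/-- rounding a constant fraction `r` on `W`: there is `W' ⊆ W` with `|S j ∩ W'| = r |S j ∩ W| ± t`. -/
theorem exists_subset (S : ι → Finset V) (t : ℕ) (ht : ∀ v, #(univ.filter fun j => v ∈ S j) ≤ t)
    (W : Finset V) (r : ℝ) (hr0 : 0 ≤ r) (hr1 : r ≤ 1) :
    ∃ W' ⊆ W, ∀ j, |(#(S j ∩ W') : ℝ) - r * #(S j ∩ W)| ≤ t := by
  classical
  obtain ⟨z, hz1, hz2, hz3⟩ := round_aux S t ht _ (fun v => if v ∈ W then r else 0)
    (by intro v; split_ifs <;> constructor <;> linarith) rfl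
  refine ⟨W.filter fun v => z v = 1, filter_subset _ _, fun j => ?_⟩
  have h1 := hz3 j
  rw [sum_sub_distrib] at h1
  have hzW : ∀ v, v ∉ W → z v = 0 := by
    intro v hv
    have : v ∉ floating (fun v => if v ∈ W then r else 0) := by
      rw [mem_floating]; simp [hv]
    rw [hz2 v this]; simp [hv]
  have h2 : ∑ v ∈ S j, z v = #(S j ∩ W.filter fun v => z v = 1) := by
    rw [card_eq_sum_ones, Nat.cast_sum]
    symm
    have : ∑ v ∈ S j ∩ W.filter (fun v => z v = 1), ((1 : ℕ) : ℝ)
        = ∑ v ∈ S j ∩ W.filter (fun v => z v = 1), z v := by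
      apply sum_congr rfl
      intro v hv
      rw [(mem_filter.1 (mem_inter.1 hv).2).2]; simp
    rw [this]
    apply sum_subset inter_subset_left
    intro v hv hv'
    rcases hz1 v with h | h
    · exact h
    · exfalso
      apply hv'
      rw [mem_inter, mem_filter]
      refine ⟨hv, ?_, h⟩
      by_contra hc
      rw [hzW v hc] at h; norm_num at h
  have h3 : ∑ v ∈ S j, (if v ∈ W then r else 0) = r * #(S j ∩ W) := by
    rw [sum_ite_mem]; simp [mul_comm]
  rw [h2, h3] at h1
  exact h1

end Pool.Agent.Helper86.BF
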