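import Pool.Agent.Helper86.BF.Events
import Pool.Agent.Helper86.BF.Labels

/-!
The multi-stage colouring with concrete parameters.
-/

namespace Pool.Agent.Helper86.BF

open Finset SimpleGraph

/-- the densities of the nested classes -/
noncomputable def Qf (y : ℝ) (K k : ℕ) : ℝ := if k = 0 then 1 else if k ≤ K then y / y ^ (4 * k) else 0

section Qf

variable {y : ℝ} {K : ℕ}

theorem Qf_zero : Qf y K 0 = 1 := by simp [Qf]

theorem Qf_succ {k : ℕ} (hk : k + 1 ≤ K) : Qf y K (k + 1) = y / y ^ (4 * (k + 1)) := by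
  simp [Qf, hk]

theorem Qf_last : Qf y K (K + 1) = 0 := by simp [Qf]

theorem Qf_pos (hy : 2 ≤ y) {k : ℕ} (hk : k ≤ K) : 0 < Qf y K k := by
  unfold Qf
  split_ifs
  · norm_num
  · positivity

theorem Qf_nonneg (hy : 2 ≤ y) (k : ℕ) : 0 ≤ Qf y K k := by
  unfold Qf
  split_ifs
  · norm_num
  · positivity
  · exact le_rfl

theorem Qf_half (hy : 2 ≤ y) {k : ℕ} (hk : k ≤ K) : Qf y K (k + 1) ≤ Qf y K k / 2 := by
  have hy0 : 0 < y := by linarith
  rcases Nat.lt_or_ge k K with hlt | hge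
  · rw [Qf_succ hlt]
    rcases k with _ | k
    · rw [Qf_zero, div_le_div_iff₀ (by positivity) (by norm_num)]
      have : (2 : ℝ) * y ≤ y ^ 2 := by nlinarith
      have h2 : y ^ 2 ≤ y ^ 4 := pow_le_pow_right₀ (by linarith) (by norm_num)
      have h3 : y ^ (4 * (0 + 1)) = y ^ 4 := by norm_num
      rw [h3]; linarith
    · rw [Qf_succ (by omega), div_div, div_le_div_iff₀ (by positivity) (by positivity)]
      have h1 : y ^ (4 * (k + 1 + 1)) = y ^ (4 * (k + 1)) * y ^ 4 := by rw [← pow_add]; ring_nf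
      rw [h1]
      have h2 : (2 : ℝ) ≤ y ^ 4 := by
        have : y ^ 1 ≤ y ^ 4 := pow_le_pow_right₀ (by linarith) (by norm_num)
        linarith
      have h3 : 0 < y * y ^ (4 * (k + 1)) := by positivity
      nlinarith
  · have : k = K := le_antisymm hk hge
    subst this
    rw [Qf_last]
    have := Qf_pos (K := k) hy le_rfl
    positivity

theorem Qf_mul (hy : 2 ≤ y) {k : ℕ} (hk : k ≤ K) : Qf y K k * y ^ (4 * k + 8) ≤ y ^ 9 := by
  have hy0 : 0 < y := by linarith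
  rcases k with _ | k
  · rw [Qf_zero, one_mul]
    exact pow_le_pow_right₀ (by linarith) (by norm_num)
  · rw [Qf_succ hk]
    apply le_of_eq
    rw [pow_add]
    field_simp

theorem Qf_low (hy : 2 ≤ y) {k : ℕ} (hk : k + 1 ≤ K) :
    y ^ 5 ≤ Qf y K (k + 1) * y ^ (4 * (k + 1) + 4) := by
  have hy0 : 0 < y := by linarith
  rw [Qf_succ hk, pow_add]
  apply le_of_eq
  field_simp

theorem Qf_low' (hy : 2 ≤ y) {k : ℕ} (hk : k + 1 ≤ K) :
    y ^ 5 ≤ Qf y K k * y ^ (4 * (k + 1) + 4) := by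
  have h1 := Qf_low hy hk
  have h2 := Qf_half (K := K) hy (k := k) (by omega)
  have h3 := Qf_nonneg (K := K) hy k
  have h4 : Qf y K (k + 1) ≤ Qf y K k := by linarith
  refine h1.trans ?_
  have : 0 < y := by linarith
  gcongr

theorem Qf_ratio (hy : 2 ≤ y) {k : ℕ} (hk : k + 1 ≤ K) :
    Qf y K k * y ≤ Qf y K (k + 1) ^ 2 * y ^ (4 * (k + 1) + 4) := by
  have hy0 : 0 < y := by linarith
  rw [Qf_succ hk]
  rcases k with _ | k
  · rw [Qf_zero, one_mul]
    have h1 : (y / y ^ (4 * (0 + 1))) ^ 2 * y ^ (4 * (0 + 1) + 4) = y ^ 2 := by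
      norm_num
      field_simp
    rw [h1]; nlinarith
  · rw [Qf_succ (by omega)]
    apply le_of_eq
    have h1 : y ^ (4 * (k + 1 + 1)) = y ^ (4 * (k + 1)) * y ^ 4 := by rw [← pow_add]; ring_nf
    have h2 : y ^ (4 * (k + 1 + 1) + 4) = y ^ (4 * (k + 1)) * y ^ 8 := by rw [← pow_add]; ring_nf
    rw [h2, h1]
    field_simp

end Qf

/-! ### the process with the concrete parameters -/

section main

variable {V : Type*} [Fintype V] [DecidableEq V] {ι : Type*} [Fintype ι] [DecidableEq ι]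

/-- upper bound for the sizes of the parts -/
noncomputable def mf (S : ι → Finset V) (t : ℕ) (y : ℝ) (K k : ℕ) (j : ι) : ℝ :=
  (Qf y K k - Qf y K (k + 1)) * #(S j) + (2 * k + 1) * t

/-- protected sets -/
noncomputable def protf (S : ι → Finset V) (t : ℕ) (y : ℝ) (k : ℕ) : Finset ι := by
  classical
  exact if k = 0 then ∅ else univ.filter fun j => (t : ℝ) * y ^ (4 * k + 4) ≤ #(S j)

variable (S : ι → Finset V) (t s : ℕ) (y c L : ℝ) (K : ℕ)

theorem mem_protf {k : ℕ} {j : ι} :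
    j ∈ protf S t y k ↔ k ≠ 0 ∧ (t : ℝ) * y ^ (4 * k + 4) ≤ #(S j) := by
  classical
  unfold protf
  split_ifs with h
  · simp [h]
  · simp [h]

theorem mf_pos (hy : 2 ≤ y) (ht0 : 0 < t) {k : ℕ} (hk : k ≤ K) (j : ι) : 0 < mf S t y K k j := by
  unfold mf
  have h1 := Qf_half (K := K) hy hk
  have h2 := Qf_nonneg (K := K) hy k
  have h3 : 0 ≤ Qf y K k - Qf y K (k + 1) := by linarith
  have h4 : (0 : ℝ) < t := by exact_mod_cast ht0
  positivity

/-- bound of `mf` for protected sets -/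
theorem mf_le_prot (hy : 2 ≤ y) (hy5 : 4 * (2 * (K : ℝ) + 1) ≤ y ^ 5) {k : ℕ} (hk : k + 1 ≤ K) {j : ι}
    (hj : j ∈ protf S t y (k + 1)) : mf S t y K k j ≤ 2 * Qf y K k * #(S j) := by
  have hj' := ((mem_protf S t y).1 hj).2
  have h1 := Qf_low' hy hk
  have h2 := Qf_nonneg (K := K) hy k
  have h3 := Qf_nonneg (K := K) hy (k + 1)
  have hkK : (k : ℝ) + 1 ≤ K := by exact_mod_cast hk
  have ht' : (0 : ℝ) ≤ t := by positivity
  have h4 : (2 * (k : ℝ) + 1) * t ≤ Qf y K k * #(S j) := by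
    calc (2 * (k : ℝ) + 1) * t ≤ y ^ 5 * t := by
          gcongr
          linarith
      _ ≤ (Qf y K k * y ^ (4 * (k + 1) + 4)) * t := by gcongr
      _ = Qf y K k * (t * y ^ (4 * (k + 1) + 4)) := by ring
      _ ≤ _ := by gcongr
  have h5 : 0 ≤ Qf y K (k + 1) * #(S j) := by positivity
  unfold mf
  nlinarith

/-- lower bound of the part of a protected set -/
theorem cnt_ge_prot (hy : 2 ≤ y) (hy5 : 4 * (2 * (K : ℝ) + 1) ≤ y ^ 5) {k : ℕ} (hk : k + 1 ≤ K) {j : ι}
    (hj : j ∈ protf S t y (k + 1)) {x : ℝ}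
    (hx : |x - (Qf y K (k + 1) - Qf y K (k + 1 + 1)) * #(S j)| ≤ (2 * ((k + 1 : ℕ) : ℝ) + 1) * t) :
    Qf y K (k + 1) * #(S j) / 4 ≤ x := by
  have hj' := ((mem_protf S t y).1 hj).2
  have h1 := Qf_low hy hk
  have h2 := Qf_half (K := K) hy (k := k + 1) (by omega)
  have h3 := Qf_nonneg (K := K) hy (k + 1)
  have hkK : (k : ℝ) + 1 ≤ K := by exact_mod_cast hk
  have ht' : (0 : ℝ) ≤ t := by positivity
  have h4 : 4 * ((2 * ((k + 1 : ℕ) : ℝ) + 1) * t) ≤ Qf y K (k + 1) * #(S j) := by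
    calc 4 * ((2 * ((k + 1 : ℕ) : ℝ) + 1) * t) = (4 * (2 * ((k + 1 : ℕ) : ℝ) + 1)) * t := by ring
      _ ≤ y ^ 5 * t := by
          gcongr
          push_cast
          linarith
      _ ≤ (Qf y K (k + 1) * y ^ (4 * (k + 1) + 4)) * t := by gcongr
      _ = Qf y K (k + 1) * (t * y ^ (4 * (k + 1) + 4)) := by ring
      _ ≤ _ := by gcongr
  have h5 : Qf y K (k + 1 + 1) * #(S j) ≤ Qf y K (k + 1) / 2 * #(S j) := by gcongr
  have h6 := (abs_le.1 hx).1
  nlinarith

/-- bound of `mf` for small sets -/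
theorem mf_le_small (hy : 2 ≤ y) {k : ℕ} (hk : k ≤ K) {j : ι}
    (hj : (#(S j) : ℝ) ≤ t * y ^ (4 * k + 8)) :
    mf S t y K k j ≤ t * y ^ 9 + (2 * K + 1) * t := by
  have h1 := Qf_mul hy hk
  have h2 := Qf_nonneg (K := K) hy k
  have h3 := Qf_nonneg (K := K) hy (k + 1)
  have hkK : (k : ℝ) ≤ K := by exact_mod_cast hk
  have ht' : (0 : ℝ) ≤ t := by positivity
  have h4 : Qf y K k * #(S j) ≤ t * y ^ 9 := by
    calc Qf y K k * #(S j) ≤ Qf y K k * (t * y ^ (4 * k + 8)) := by gcongr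
      _ = t * (Qf y K k * y ^ (4 * k + 8)) := by ring
      _ ≤ _ := by gcongr
  have h5 : 0 ≤ Qf y K (k + 1) * #(S j) := by positivity
  have h6 : (2 * (k : ℝ) + 1) * t ≤ (2 * K + 1) * t := by gcongr
  unfold mf
  nlinarith

/-- bound of the corrections -/
theorem g_le (P : Par V ι) (hprot : P.prot = protf P.S t y)
    (hcapP : ∀ k j, P.cap k j = ⌊c * Real.sqrt (mf P.S t y K (k - 1) j)⌋₊)
    (hy : 2 ≤ y) (hc : 0 ≤ c) (ht0 : 0 < t) (hy5 : 4 * (2 * (K : ℝ) + 1) ≤ y ^ 5)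
    (hlab : ∀ k ≤ K, ∀ j, |(#((P.S j).filter fun v => P.lab v = k) : ℝ)
      - (Qf y K k - Qf y K (k + 1)) * #(P.S j)| ≤ (2 * k + 1) * t)
    {k : ℕ} (hk : k ≤ K) {j : ι} (hj : j ∈ P.prot k) (ω : V → Fin (2 * P.F)) :
    |P.g k j ω| ≤ Real.sqrt (32 * c ^ 2 / (t * y)) := by
  rw [hprot] at hj
  obtain ⟨k, rfl⟩ : ∃ k', k = k' + 1 := by
    rcases k with _ | k
    · exact absurd rfl ((mem_protf P.S t y).1 hj).1
    · exact ⟨k, rfl⟩
  apply Real.abs_le_sqrt
  have hcnt := cnt_ge_prot P.S t y K hy hy5 hk hj (hlab (k + 1) hk j)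
  have hj' := ((mem_protf P.S t y).1 hj).2
  have hm := mf_le_prot P.S t y K hy hy5 hk hj
  have hy0 : 0 < y := by linarith
  have ht' : (0 : ℝ) < t := by exact_mod_cast ht0
  have hSj : (0 : ℝ) < #(P.S j) := lt_of_lt_of_le (by positivity) hj'
  have hQ1 := Qf_pos (K := K) hy (k := k + 1) hk
  have hQ0 := Qf_pos (K := K) hy (k := k) (by omega)
  have hratio := Qf_ratio hy hk
  have hcap : ((P.cap (k + 1) j : ℕ) : ℝ) ≤ c * Real.sqrt (mf P.S t y K k j) := by
    rw [hcapP, Nat.add_sub_cancel]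
    exact Nat.floor_le (by positivity)
  have hmpos := mf_pos P.S t y K hy ht0 (k := k) (by omega) j
  have hhat : ((P.hatOf (k + 1) (P.col (k + 1) ω) j : ℤ) : ℝ) ^ 2 ≤ c ^ 2 * mf P.S t y K k j := by
    have h1 : |((P.hatOf (k + 1) (P.col (k + 1) ω) j : ℤ) : ℝ)| ≤ P.cap (k + 1) j := by
      have : |P.hatOf (k + 1) (P.col (k + 1) ω) j| ≤ (P.cap (k + 1) j : ℤ) := by
        unfold Par.hatOf
        rw [abs_le]; omega
      exact_mod_cast this
    calc ((P.hatOf (k + 1) (P.col (k + 1) ω) j : ℤ) : ℝ) ^ 2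
        = |((P.hatOf (k + 1) (P.col (k + 1) ω) j : ℤ) : ℝ)| ^ 2 := (sq_abs _).symm
      _ ≤ (c * Real.sqrt (mf P.S t y K k j)) ^ 2 := by
          gcongr
          exact h1.trans hcap
      _ = _ := by rw [mul_pow, Real.sq_sqrt hmpos.le]
  have hcnt' : Qf y K (k + 1) * #(P.S j) / 4 ≤ (P.cnt (k + 1) j : ℝ) := hcnt
  have hcpos : 0 < (P.cnt (k + 1) j : ℝ) := lt_of_lt_of_le (by positivity) hcnt'
  unfold Par.g
  rw [div_pow, div_le_div_iff₀ (by positivity) (by positivity)]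
  have h5 : Qf y K k * (t * y) ≤ Qf y K (k + 1) ^ 2 * #(P.S j) := by
    calc Qf y K k * (t * y) = (Qf y K k * y) * t := by ring
      _ ≤ (Qf y K (k + 1) ^ 2 * y ^ (4 * (k + 1) + 4)) * t := by gcongr
      _ = Qf y K (k + 1) ^ 2 * (t * y ^ (4 * (k + 1) + 4)) := by ring
      _ ≤ _ := by gcongr
  calc ((P.hatOf (k + 1) (P.col (k + 1) ω) j : ℤ) : ℝ) ^ 2 * (t * y)
      ≤ (c ^ 2 * (2 * Qf y K k * #(P.S j))) * (t * y) := by
        gcongr
        refine hhat.trans ?_
        gcongr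
    _ = 2 * c ^ 2 * #(P.S j) * (Qf y K k * (t * y)) := by ring
    _ ≤ 2 * c ^ 2 * #(P.S j) * (Qf y K (k + 1) ^ 2 * #(P.S j)) := by gcongr
    _ = 32 * c ^ 2 * (Qf y K (k + 1) * #(P.S j) / 4) ^ 2 := by ring
    _ ≤ 32 * c ^ 2 * (P.cnt (k + 1) j : ℝ) ^ 2 := by gcongr

/-- one stage -/
theorem stage (P : Par V ι) (hprot : P.prot = protf P.S t y) (hPF : P.F = s.factorial)
    (hy : 2 ≤ y) (hc : c = 4 * Real.sqrt L + 1) (ht0 : 0 < t) (hL : 0 ≤ L)
    (hyL : 64 * c ^ 2 * L ≤ y) (hy5 : 4 * (2 * (K : ℝ) + 1) ≤ y ^ 5)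
    (hs : ∀ j, #(P.S j) ≤ s)
    (hlab : ∀ k ≤ K, ∀ j, |(#((P.S j).filter fun v => P.lab v = k) : ℝ)
      - (Qf y K k - Qf y K (k + 1)) * #(P.S j)| ≤ (2 * k + 1) * t)
    {k : ℕ} (hk : k ≤ K) (j : ι) (ω : V → Fin (2 * P.F))
    (hω : ω ∉ P.Bad t (fun _ => Real.sqrt (32 * c ^ 2 / (t * y))) (mf P.S t y K) L k j) :
    |(P.err (k + 1) ω j : ℝ)| ≤
      |(P.err k ω j : ℝ) -
        (if j ∈ P.prot k then (P.hatOf k (P.col k ω) j : ℝ) else 0)|
      + c * Real.sqrt (mf P.S t y K k j) := by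
  classical
  have hy0 : 0 < y := by linarith
  have ht' : (0 : ℝ) < t := by exact_mod_cast ht0
  have hmpos := mf_pos P.S t y K hy ht0 (k := k) hk j
  simp only [Par.Bad, mem_filter, mem_univ, true_and, not_or, not_lt, not_exists, not_and] at hω
  obtain ⟨h1, h2, h3⟩ := hω
  have hF : 0 < P.F := by rw [hPF]; exact Nat.factorial_pos s
  have hc0 : 0 ≤ c := by rw [hc]; positivity
  have hdvd : ∀ j ∈ P.prot k, 0 < P.cnt k j ∧ P.cnt k j ∣ P.F := by
    intro j hj
    have hj0 : j ∈ protf P.S t y k := by rw [hprot] at hj; exact hj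
    obtain ⟨k, rfl⟩ : ∃ k', k = k' + 1 := by
      rcases k with _ | k
      · exact absurd rfl ((mem_protf P.S t y).1 hj0).1
      · exact ⟨k, rfl⟩
    have hcnt := cnt_ge_prot P.S t y K hy hy5 hk hj0 (hlab (k + 1) hk j)
    have hj' := ((mem_protf P.S t y).1 hj0).2
    have hSj : (0 : ℝ) < #(P.S j) := lt_of_lt_of_le (by positivity) hj'
    have hQ1 := Qf_pos (K := K) hy (k := k + 1) hk
    have hcnt' : Qf y K (k + 1) * #(P.S j) / 4 ≤ (P.cnt (k + 1) j : ℝ) := hcnt
    have hcpos : 0 < (P.cnt (k + 1) j : ℝ) := lt_of_lt_of_le (by positivity) hcnt'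
    have hcpos' : 0 < P.cnt (k + 1) j := by exact_mod_cast hcpos
    rw [hPF]
    refine ⟨hcpos', Nat.dvd_factorial hcpos' ?_⟩
    exact (card_le_card (filter_subset _ _)).trans (hs j)
  have hone : Real.sqrt (32 * c ^ 2 / (t * y)) * Real.sqrt (2 * t * L) ≤ 1 := by
    rw [← Real.sqrt_mul (by positivity), Real.sqrt_le_one]
    have : 32 * c ^ 2 / (t * y) * (2 * t * L) = 64 * c ^ 2 * L / y := by
      field_simp; ring
    rw [this, div_le_one hy0]
    exact hyL
  have hC : ∀ v ∈ P.part k j, |P.Csum k v ω| ≤ 1 := fun v hv => (h3 v hv).trans hone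
  have hD : |P.Dsum k j ω| ≤ Real.sqrt (mf P.S t y K k j) := by
    refine h2.trans ?_
    have : (2 : ℝ) * (t * mf P.S t y K k j) * L = (2 * t * L) * mf P.S t y K k j := by ring
    rw [this, Real.sqrt_mul (by positivity), ← mul_assoc]
    calc _ ≤ 1 * Real.sqrt (mf P.S t y K k j) := by gcongr
      _ = _ := one_mul _
  have hN : |P.Nsum k j ω| ≤ 4 * Real.sqrt L * Real.sqrt (mf P.S t y K k j) := by
    refine h1.trans (le_of_eq ?_)
    rw [Real.sqrt_mul hmpos.le]; ring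
  have herr := P.err_succ k j ω
  rw [P.sum_mean hF hdvd ω hC] at herr
  rw [herr]
  generalize (if j ∈ P.prot k then (P.hatOf k (P.col k ω) j : ℝ) else 0) = h
  have hrw : (P.err k ω j : ℝ) + P.Nsum k j ω + (-h - P.Dsum k j ω)
      = ((P.err k ω j : ℝ) - h) + (P.Nsum k j ω + (- P.Dsum k j ω)) := by ring
  rw [hrw]
  refine (abs_add_le _ _).trans ?_
  gcongr
  refine (abs_add_le _ _).trans ?_
  rw [abs_neg, hc]
  linarith

/-- the conclusion of all the stages -/
theorem stages (P : Par V ι) (hprot : P.prot = protf P.S t y) (hPF : P.F = s.factorial)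
    (hcapP : ∀ k j, P.cap k j = ⌊c * Real.sqrt (mf P.S t y K (k - 1) j)⌋₊)
    (hy : 2 ≤ y) (hc : c = 4 * Real.sqrt L + 1) (ht0 : 0 < t) (hL : 0 ≤ L)
    (hyL : 64 * c ^ 2 * L ≤ y) (hy5 : 4 * (2 * (K : ℝ) + 1) ≤ y ^ 5)
    (hs : ∀ j, #(P.S j) ≤ s) (hsK : (s : ℝ) ≤ t * y ^ (4 * K + 8))
    (hlab : ∀ k ≤ K, ∀ j, |(#((P.S j).filter fun v => P.lab v = k) : ℝ)
      - (Qf y K k - Qf y K (k + 1)) * #(P.S j)| ≤ (2 * k + 1) * t)
    (ω : V → Fin (2 * P.F))
    (hω : ∀ k ≤ K, ∀ j, ω ∉ P.Bad t (fun _ => Real.sqrt (32 * c ^ 2 / (t * y)))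
      (mf P.S t y K) L k j) (j : ι) :
    |(P.err (K + 1) ω j : ℝ)| ≤ c * (K + 1) * Real.sqrt (t * y ^ 9 + (2 * K + 1) * t) := by
  have hy0 : 0 < y := by linarith
  have ht' : (0 : ℝ) < t := by exact_mod_cast ht0
  have hc0 : 0 ≤ c := by rw [hc]; positivity
  have hst := fun (k : ℕ) (hk : k ≤ K) => stage t s y c L K P hprot hPF hy hc ht0 hL hyL hy5 hs
    hlab hk j ω (hω k hk j)
  -- thresholds increase
  have hmono : ∀ k, j ∈ P.prot (k + 1) → k = 0 ∨ j ∈ P.prot k := by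
    intro k hk
    rcases Nat.eq_zero_or_pos k with h0 | h0
    · exact Or.inl h0
    · right
      rw [hprot, mem_protf] at hk ⊢
      refine ⟨by omega, le_trans ?_ hk.2⟩
      have : y ^ (4 * k + 4) ≤ y ^ (4 * (k + 1) + 4) := pow_le_pow_right₀ (by linarith) (by omega)
      gcongr
  -- claim A
  have hA : ∀ k ≤ K, (k = 0 ∨ j ∈ P.prot k) →
      |(P.err (k + 1) ω j : ℝ)| ≤ c * Real.sqrt (mf P.S t y K k j) := by
    intro k
    induction k with
    | zero =>
      intro _ _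
      have h1 := hst 0 (by omega)
      have h2 : j ∉ P.prot 0 := by rw [hprot, mem_protf]; simp
      rw [if_neg h2] at h1
      have h3 : (P.err 0 ω j : ℝ) = 0 := by
        have : P.err 0 ω j = 0 := by
          unfold Par.err Par.errOf
          exact sum_eq_zero fun v _ => rfl
        rw [this]; simp
      rw [h3] at h1
      simpa using h1
    | succ k ih =>
      intro hk hj
      have hj : j ∈ P.prot (k + 1) := hj.resolve_left (by omega)
      have h1 := ih (by omega) (hmono k hj)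
      have h2 := hst (k + 1) hk
      rw [if_pos hj] at h2
      have h3 : P.hatOf (k + 1) (P.col (k + 1) ω) j = P.err (k + 1) ω j := by
        have h4 : |P.err (k + 1) ω j| ≤ (P.cap (k + 1) j : ℤ) := by
          rw [hcapP, Nat.add_sub_cancel]
          have h5 : ((|P.err (k + 1) ω j|.toNat : ℕ) : ℝ) ≤ c * Real.sqrt (mf P.S t y K k j) := by
            have h6 : ((|P.err (k + 1) ω j|.toNat : ℕ) : ℝ) = |(P.err (k + 1) ω j : ℝ)| := by
              have h7 : ((|P.err (k + 1) ω j|.toNat : ℕ) : ℤ) = |P.err (k + 1) ω j| :=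
                Int.toNat_of_nonneg (abs_nonneg _)
              rw [← Int.cast_natCast (R := ℝ), h7, Int.cast_abs]
            rw [h6]; exact h1
          have h9 := Nat.le_floor h5
          omega
        show P.hatOf (k + 1) (P.col (k + 1) ω) j = P.errOf (P.col (k + 1) ω) j
        have h5 : P.err (k + 1) ω j = P.errOf (P.col (k + 1) ω) j := rfl
        rw [h5, abs_le] at h4
        unfold Par.hatOf
        omega
      rw [h3] at h2
      simpa using h2
  have hM0 : 0 ≤ t * y ^ 9 + (2 * K + 1) * t := by positivity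
  have hB : ∀ k ≤ K, (k = K ∨ j ∉ P.prot (k + 1)) →
      |(P.err (k + 1) ω j : ℝ)| ≤ c * (k + 1) * Real.sqrt (t * y ^ 9 + (2 * K + 1) * t) := by
    intro k
    induction k with
    | zero =>
      intro hk hj
      have h1 := hA 0 hk (Or.inl rfl)
      have h2 : (#(P.S j) : ℝ) ≤ t * y ^ (4 * 0 + 8) := by
        rcases hj with hj | hj
        · subst hj
          exact le_trans (by exact_mod_cast hs j) hsK
        · rw [hprot, mem_protf] at hj
          push Not at hj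
          exact (hj (by omega)).le
      have h3 := mf_le_small P.S t y K hy hk h2
      have h4 := Real.sqrt_le_sqrt h3
      calc _ ≤ _ := h1
        _ ≤ c * Real.sqrt (t * y ^ 9 + (2 * K + 1) * t) := by gcongr
        _ = _ := by push_cast; ring
    | succ k ih =>
      intro hk hj
      have h2 : (#(P.S j) : ℝ) ≤ t * y ^ (4 * (k + 1) + 8) := by
        rcases hj with hj | hj
        · rw [hj]
          exact le_trans (by exact_mod_cast hs j) hsK
        · rw [hprot, mem_protf] at hj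
          push Not at hj
          exact (hj (by omega)).le
      have h3 := mf_le_small P.S t y K hy hk h2
      have h4 := Real.sqrt_le_sqrt h3
      by_cases hp : j ∈ P.prot (k + 1)
      · have h1 := hA (k + 1) hk (Or.inr hp)
        have hs0 := Real.sqrt_nonneg (t * y ^ 9 + (2 * K + 1) * t)
        calc _ ≤ _ := h1
          _ ≤ c * Real.sqrt (t * y ^ 9 + (2 * K + 1) * t) := by gcongr
          _ = c * 1 * Real.sqrt (t * y ^ 9 + (2 * K + 1) * t) := by ring
          _ ≤ _ := by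
            gcongr
            push_cast
            have : (0 : ℝ) ≤ k := by positivity
            linarith
      · have h1 := ih (by omega) (Or.inr hp)
        have h5 := hst (k + 1) hk
        rw [if_neg hp, sub_zero] at h5
        calc _ ≤ _ := h5
          _ ≤ c * (k + 1) * Real.sqrt (t * y ^ 9 + (2 * K + 1) * t)
              + c * Real.sqrt (t * y ^ 9 + (2 * K + 1) * t) := by gcongr
          _ = _ := by push_cast; ring
  exact hB K le_rfl (Or.inl rfl)

end main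

end Pool.Agent.Helper86.BF
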